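import Pool.Agent.Lib.MP_af815a_al.Cond

set_option autoImplicit false

/-!
# The amalgam of three copies of a finite group

Let `A` be a finite group with generators `a j`, `j < n`, such that `a j` is not in the group
generated by the earlier ones.  Three embeddings of `A` into a group of permutations are defined,
which agree on the generators in a set `ρ` of first indices, such that
`ι₁(b) ι₀(b)⁻¹ ι₁(b) = ι₂(b)` for all `b`.
-/

namespace Pool.Agent.MP_af815a_al

open Cardinal

universe u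

section Alg

variable {A : Type*} [Group A] {n : ℕ}

open Classical in
/-- The characteristic functions of the groups generated by the generators before `c`. -/
noncomputable def chi (a : Fin n → A) (ρ : Fin n → Prop) (x : A) (c : Fin n) : ZMod 4 :=
  if ¬ ρ c ∧ x ∈ Subgroup.closure (a '' Set.Iio c) then 1 else 0

/-- The embeddings. -/
noncomputable def iota (a : Fin n → A) (ρ : Fin n → Prop) (s : ZMod 4) :
    A →* Equiv.Perm (A × (Fin n → ZMod 4)) :=
  MonoidHom.toHomPerm
    { toFun := fun b => fun (xz : A × (Fin n → ZMod 4)) =>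
        (b * xz.1, fun c => xz.2 c + s * (chi a ρ (b * xz.1) c - chi a ρ xz.1 c))
      map_one' := by
        funext xz
        show _ = xz
        ext c
        · simp
        · simp
      map_mul' := by
        intro b b'
        funext xz
        show _ = (b * (b' * xz.1), _)
        refine Prod.ext (mul_assoc _ _ _) ?_
        funext c
        show _ = (xz.2 c + s * (chi a ρ (b' * xz.1) c - chi a ρ xz.1 c)) +
          s * (chi a ρ (b * (b' * xz.1)) c - chi a ρ (b' * xz.1) c)
        simp only [mul_assoc b b' xz.1]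
        ring }

theorem iota_apply (a : Fin n → A) (ρ : Fin n → Prop) (s : ZMod 4) (b : A)
    (xz : A × (Fin n → ZMod 4)) : iota a ρ s b xz =
      (b * xz.1, fun c => xz.2 c + s * (chi a ρ (b * xz.1) c - chi a ρ xz.1 c)) := rfl

theorem iota_injective (a : Fin n → A) (ρ : Fin n → Prop) (s : ZMod 4) :
    Function.Injective (iota a ρ s) := by
  intro b b' h
  have h1 := congrArg (fun π : Equiv.Perm (A × (Fin n → ZMod 4)) => (π (1, 0)).1) h
  simpa [iota_apply] using h1

theorem iota_rel (a : Fin n → A) (ρ : Fin n → Prop) (b : A) :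
    iota a ρ 1 b * (iota a ρ 0 b)⁻¹ * iota a ρ 1 b = iota a ρ 2 b := by
  rw [← map_inv]
  apply Equiv.ext
  intro xz
  rw [Equiv.Perm.mul_apply, Equiv.Perm.mul_apply, iota_apply, iota_apply, iota_apply, iota_apply]
  refine Prod.ext (by simp) ?_
  funext c
  simp only [inv_mul_cancel_left, one_mul, zero_mul, add_zero]
  ring

theorem chi_mul {a : Fin n → A} {ρ : Fin n → Prop} {b : A} {c : Fin n}
    (h : ρ c ∨ b ∈ Subgroup.closure (a '' Set.Iio c)) (x : A) :
    chi a ρ (b * x) c = chi a ρ x c := by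
  unfold chi
  by_cases hc : ρ c
  · simp [hc]
  · have h1 := h.resolve_left hc
    rw [Subgroup.mul_mem_cancel_left _ h1]

/-- The embeddings agree at the generators in `ρ`. -/
theorem iota_root {a : Fin n → A} {ρ : Fin n → Prop} (hρ : ∀ j k, ρ k → j ≤ k → ρ j) {j : Fin n}
    (hj : ρ j) (s s' : ZMod 4) : iota a ρ s (a j) = iota a ρ s' (a j) := by
  apply Equiv.ext
  intro xz
  rw [iota_apply, iota_apply]
  refine Prod.ext rfl ?_
  funext c
  have h : chi a ρ (a j * xz.1) c = chi a ρ xz.1 c := by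
    apply chi_mul
    by_cases hc : ρ c
    · exact Or.inl hc
    · right
      apply Subgroup.subset_closure
      refine ⟨j, ?_, rfl⟩
      by_contra hjc
      exact hc (hρ c j hj (not_lt.1 hjc))
  simp [h]

/-- The permutations whose displacement of the coordinates `c ≥ j` is killed by `t`. -/
def Kgp (A : Type*) {n : ℕ} (j : Fin n) (t : ZMod 4) :
    Subgroup (Equiv.Perm (A × (Fin n → ZMod 4))) where
  carrier := {π | ∀ xz, ∀ c, j ≤ c → t * ((π xz).2 c - xz.2 c) = 0}
  one_mem' := by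
    intro xz c _
    simp
  mul_mem' := by
    intro π σ hπ hσ xz c hc
    have h1 := hπ (σ xz) c hc
    have h2 := hσ xz c hc
    rw [Equiv.Perm.mul_apply]
    linear_combination h1 + h2
  inv_mem' := by
    intro π hπ xz c hc
    have h1 := hπ (π⁻¹ xz) c hc
    have h2 : π (π⁻¹ xz) = xz := by
      rw [← Equiv.Perm.mul_apply, mul_inv_cancel, Equiv.Perm.one_apply]
    rw [h2] at h1
    linear_combination -h1

omit [Group A] in
theorem mem_Kgp {j : Fin n} {t : ZMod 4} {π : Equiv.Perm (A × (Fin n → ZMod 4))} :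
    π ∈ Kgp A j t ↔ ∀ xz, ∀ c, j ≤ c → t * ((π xz).2 c - xz.2 c) = 0 := Iff.rfl

theorem iota_mem_Kgp_of_mul {a : Fin n → A} {ρ : Fin n → Prop} {j : Fin n} {s t : ZMod 4}
    (h : t * s = 0) (b : A) : iota a ρ s b ∈ Kgp A j t := by
  intro xz c _
  rw [iota_apply]
  show t * (xz.2 c + s * (chi a ρ (b * xz.1) c - chi a ρ xz.1 c) - xz.2 c) = 0
  linear_combination (chi a ρ (b * xz.1) c - chi a ρ xz.1 c) * h

theorem iota_mem_Kgp_of_lt {a : Fin n → A} {ρ : Fin n → Prop} {j k : Fin n} {s t : ZMod 4}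
    (h : k < j) : iota a ρ s (a k) ∈ Kgp A j t := by
  intro xz c hc
  rw [iota_apply]
  show t * (xz.2 c + s * (chi a ρ (a k * xz.1) c - chi a ρ xz.1 c) - xz.2 c) = 0
  have h1 : chi a ρ (a k * xz.1) c = chi a ρ xz.1 c :=
    chi_mul (Or.inr (Subgroup.subset_closure ⟨k, lt_of_lt_of_le h hc, rfl⟩)) _
  rw [h1]
  ring

theorem iota_notMem_Kgp {a : Fin n → A} {ρ : Fin n → Prop} {j : Fin n} {s t : ZMod 4}
    (ha : a j ∉ Subgroup.closure (a '' Set.Iio j)) (hj : ¬ ρ j) (h : t * s ≠ 0) :
    iota a ρ s (a j) ∉ Kgp A j t := by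
  intro hmem
  have h1 := hmem (1, 0) j le_rfl
  rw [iota_apply] at h1
  have h2 : chi a ρ (a j * (1 : A)) j = 0 := by
    unfold chi
    rw [mul_one, if_neg (fun hh => ha hh.2)]
  have h3 : chi a ρ (1 : A) j = 1 := by
    unfold chi
    rw [if_pos ⟨hj, one_mem _⟩]
  have h4 : t * ((0 : ZMod 4) + s * (chi a ρ (a j * (1 : A)) j - chi a ρ (1 : A) j) - 0) = 0 := h1
  rw [h2, h3] at h4
  apply h
  linear_combination -h4

end Alg

variable {I : Type u} [LinearOrder I]

/-- The multiples which belong to the three copies. -/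
def sc : Fin 3 → ZMod 4 := ![0, 2, 1]

theorem amalgam {A : Type*} [Group A] [Finite A] {n : ℕ} (a : Fin n → A)
    (ha : ∀ j, a j ∉ Subgroup.closure (a '' Set.Iio j)) (ρ : Fin n → Prop)
    (hρ : ∀ j k, ρ k → j ≤ k → ρ j) (e : Fin 3 → Fin n → I) (he : ∀ i, StrictMono (e i))
    (hr : ∀ i i' j, ρ j → e i j = e i' j)
    (hlt : ∀ i i', i < i' → ∀ j k, ¬ ρ j → ¬ ρ k → e i j < e i' k)
    (p : Fin 3 → Cond I) (hp : ∀ i x, x ∈ (p i).F ↔ ∃ j, e i j = x)
    (f : Fin 3 → (FreeGroup I →* A)) (hf : ∀ i j, f i (FreeGroup.of (e i j)) = a j)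
    (hfp : ∀ i w, f i w = 1 ↔ (p i).hom w = 1) :
    ∃ q : Cond I, (∀ i, q ≤ p i) ∧ ∀ (g : A) (v : Fin 3 → FreeGroup I),
      (∀ i, v i ∈ Wd (p i).F) → (∀ i, f i (v i) = g) →
        q.hom (v 2 * (v 0)⁻¹ * v 2 * (v 1)⁻¹) = 1 := by
  classical
  -- positions of equal generators
  have hpos : ∀ i j i' j', e i j = e i' j' → j = j' ∧ (i = i' ∨ ρ j) := by
    intro i j i' j' h
    by_cases hii : i = i'
    · subst hii
      exact ⟨(he i).injective h, Or.inl rfl⟩
    by_cases hj : ρ j
    · refine ⟨(he i').injective ?_, Or.inr hj⟩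
      rw [← h, hr i' i j hj]
    by_cases hj' : ρ j'
    · have h1 : j = j' := (he i).injective (by rw [h, hr i i' j' hj'])
      exact ⟨h1, Or.inr (h1 ▸ hj')⟩
    exfalso
    rcases lt_or_gt_of_ne hii with h1 | h1
    · exact absurd h (hlt i i' h1 j j' hj hj').ne
    · exact absurd h (hlt i' i h1 j' j hj' hj).ne'
  let ψ : I → Equiv.Perm (A × (Fin n → ZMod 4)) := fun x =>
    if h : ∃ ij : Fin 3 × Fin n, e ij.1 ij.2 = x then
      iota a ρ (sc h.choose.1) (a h.choose.2) else 1
  have hψ : ∀ i j, ψ (e i j) = iota a ρ (sc i) (a j) := by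
    intro i j
    have h : ∃ ij : Fin 3 × Fin n, e ij.1 ij.2 = e i j := ⟨(i, j), rfl⟩
    have h1 : ψ (e i j) = iota a ρ (sc h.choose.1) (a h.choose.2) := dif_pos h
    rw [h1]
    obtain ⟨h2, h3⟩ := hpos _ _ _ _ h.choose_spec
    rw [h2] at h3 ⊢
    rcases h3 with h3 | h3
    · rw [h3]
    · exact iota_root hρ h3 _ _
  let F : Finset I := Finset.univ.image (fun ij : Fin 3 × Fin n => e ij.1 ij.2)
  have hF : ∀ x, x ∈ F ↔ ∃ i j, e i j = x := by
    intro x
    simp [F]
  -- the order of the positions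
  have hord : ∀ i j i' k, e i' k < e i j → (ρ k ∨ (¬ ρ j ∧ i' < i) ∨ i' = i) ∧
      (ρ j → ρ k) ∧ ((ρ k ∨ i' = i) → ρ j ∨ i' = i → k < j) := by
    intro i j i' k h
    have hrj : ρ j → k < j := by
      intro hj
      rw [hr i i' j hj] at h
      exact (he i').lt_iff_lt.1 h
    refine ⟨?_, ?_, ?_⟩
    · by_cases hk : ρ k
      · exact Or.inl hk
      right
      by_cases hj : ρ j
      · exact absurd (hρ k j hj (hrj hj).le) hk
      rcases lt_trichotomy i' i with h1 | h1 | h1
      · exact Or.inl ⟨hj, h1⟩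
      · exact Or.inr h1
      · exact absurd h (hlt i i' h1 j k hj hk).not_gt
    · intro hj
      exact hρ k j hj (hrj hj).le
    · intro _ h2
      rcases h2 with h2 | h2
      · exact hrj h2
      · subst h2
        exact (he i').lt_iff_lt.1 h
  obtain ⟨q, hqF, hq⟩ := exists_cond F ψ (by
    intro α hα hmem
    rw [hF] at hα
    obtain ⟨i, j, rfl⟩ := hα
    rw [hψ] at hmem
    -- the first copy
    have case0 : ∀ j, iota a ρ 0 (a j) ∈
        Subgroup.closure (ψ '' {β | β ∈ F ∧ β < e 0 j}) → False := by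
      intro j hmem
      have h1 : Subgroup.closure (ψ '' {β | β ∈ F ∧ β < e 0 j}) ≤
          (Subgroup.closure (a '' Set.Iio j)).map (iota a ρ 0) := by
        rw [Subgroup.closure_le]
        rintro _ ⟨β, ⟨hβF, hβ⟩, rfl⟩
        rw [hF] at hβF
        obtain ⟨i', k, rfl⟩ := hβF
        obtain ⟨h1, h2, h3⟩ := hord 0 j i' k hβ
        have h4 : ρ k ∨ i' = 0 := by
          rcases h1 with h1 | h1 | h1
          · exact Or.inl h1
          · exact absurd h1.2 (Fin.not_lt_zero i')
          · exact Or.inr h1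
        have h5 : e i' k = e 0 k := by
          rcases h4 with h4 | h4
          · exact hr _ _ _ h4
          · rw [h4]
        rw [h5] at hβ ⊢
        have h6 : k < j := (he 0).lt_iff_lt.1 hβ
        rw [hψ]
        exact ⟨a k, Subgroup.subset_closure ⟨k, h6, rfl⟩, rfl⟩
      obtain ⟨y, hy, hye⟩ := h1 hmem
      rw [iota_injective a ρ 0 hye] at hy
      exact ha j hy
    by_cases hj : ρ j
    · apply case0 j
      rw [iota_root hρ hj 0 (sc i), hr 0 i j hj]
      exact hmem
    -- the two other copies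
    have case12 : ∀ i, i ≠ 0 → ∀ t : ZMod 4, t * sc i ≠ 0 → (∀ i', i' < i → t * sc i' = 0) →
        iota a ρ (sc i) (a j) ∈ Subgroup.closure (ψ '' {β | β ∈ F ∧ β < e i j}) → False := by
      intro i hi t ht ht' hmem
      have h1 : Subgroup.closure (ψ '' {β | β ∈ F ∧ β < e i j}) ≤ Kgp A j t := by
        rw [Subgroup.closure_le]
        rintro _ ⟨β, ⟨hβF, hβ⟩, rfl⟩
        rw [hF] at hβF
        obtain ⟨i', k, rfl⟩ := hβF
        obtain ⟨h1, h2, h3⟩ := hord i j i' k hβ
        rw [hψ]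
        rcases h1 with h1 | h1 | h1
        · rw [iota_root hρ h1 (sc i') (sc 0)]
          exact iota_mem_Kgp_of_mul (ht' 0 (Fin.pos_iff_ne_zero.2 hi)) _
        · exact iota_mem_Kgp_of_mul (ht' i' h1.2) _
        · exact iota_mem_Kgp_of_lt (h3 (Or.inr h1) (Or.inr h1))
      exact iota_notMem_Kgp (ha j) hj ht (h1 hmem)
    fin_cases i
    · exact case0 j hmem
    · exact case12 1 (by decide) 1 (by decide) (by decide) hmem
    · exact case12 2 (by decide) 2 (by decide) (by decide) hmem)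
  have hker : ∀ i, ∀ w ∈ Wd (p i).F, FreeGroup.lift ψ w = iota a ρ (sc i) (f i w) := by
    intro i
    have : Set.EqOn (FreeGroup.lift ψ) ((iota a ρ (sc i)).comp (f i)) (Wd (p i).F) := by
      apply MonoidHom.eqOn_closure
      rintro _ ⟨β, hβ, rfl⟩
      have hβ' : β ∈ (p i).F := by exact_mod_cast hβ
      rw [hp] at hβ'
      obtain ⟨j, rfl⟩ := hβ'
      rw [FreeGroup.lift_apply_of, hψ, MonoidHom.comp_apply, hf]
    exact fun w hw => this hw
  have hsubF : ∀ i, (p i).F ⊆ F := by
    intro i x hx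
    rw [hp] at hx
    obtain ⟨j, rfl⟩ := hx
    rw [hF]
    exact ⟨i, j, rfl⟩
  refine ⟨q, ?_, ?_⟩
  · intro i
    refine ⟨?_, ?_⟩
    · rw [hqF]
      exact hsubF i
    · intro w hw
      rw [hq w (Wd_mono (hsubF i) hw), hker i w hw, ← hfp i w]
      constructor
      · intro h
        exact iota_injective a ρ (sc i) (by rw [h, map_one])
      · intro h
        rw [h, map_one]
  · intro g v hv hg
    have hv' : ∀ i, v i ∈ Wd F := fun i => Wd_mono (hsubF i) (hv i)
    rw [hq _ (mul_mem (mul_mem (mul_mem (hv' 2) (inv_mem (hv' 0))) (hv' 2)) (inv_mem (hv' 1)))]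
    rw [map_mul, map_mul, map_mul, map_inv, map_inv, hker 0 _ (hv 0), hker 1 _ (hv 1),
      hker 2 _ (hv 2), hg, hg, hg]
    have : iota a ρ (sc 2) g * (iota a ρ (sc 0) g)⁻¹ * iota a ρ (sc 2) g = iota a ρ (sc 1) g :=
      iota_rel a ρ g
    rw [this, mul_inv_cancel]

end Pool.Agent.MP_af815a_al
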