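import Mathlib

set_option autoImplicit false

/-!
Long end-homogeneous sequences in large subsets of groups.
-/

namespace Pool.Agent.Lib.MP_af815a_al

open Cardinal

universe u

section

variable {G : Type u} [Group G]

/-- the element `z` is the mirror image `y x⁻¹ y` of `x` -/
def Mir (y x z : G) : Prop := y * x⁻¹ * y = z

lemma Mir.symm {y x z : G} (h : Mir y x z) : Mir y z x := by
  unfold Mir at *
  rw [← h]
  group

/-- elements of `A` outside the subgroup generated by `X` which have the same trace as `y`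
on `X` -/
def Cand (A X : Set G) (y a : G) : Prop :=
  a ∈ A ∧ a ∉ Subgroup.closure X ∧ ∀ x ∈ X, ∀ z ∈ X, (Mir a x z ↔ Mir y x z)

open Classical in
/-- a canonical choice of such an element -/
noncomputable def rep (A X : Set G) (y : G) : G :=
  if h : ∃ a, Cand A X y a then h.choose else 1

lemma rep_congr (A X : Set G) {y y' : G} (h : ∀ x ∈ X, ∀ z ∈ X, (Mir y x z ↔ Mir y' x z)) :
    rep A X y = rep A X y' := by
  have : Cand A X y = Cand A X y' := by
    funext a
    apply propext
    unfold Cand
    constructor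
    · rintro ⟨h1, h2, h3⟩
      exact ⟨h1, h2, fun x hx z hz => (h3 x hx z hz).trans (h x hx z hz)⟩
    · rintro ⟨h1, h2, h3⟩
      exact ⟨h1, h2, fun x hx z hz => (h3 x hx z hz).trans (h x hx z hz).symm⟩
  unfold rep
  rw [this]

lemma rep_spec {A X : Set G} {y : G} (h : ∃ a, Cand A X y a) : Cand A X y (rep A X y) := by
  unfold rep
  rw [dif_pos h]
  exact h.choose_spec

variable {I : Type u} [LinearOrder I] [WellFoundedLT I]

/-- the canonical sequence imitating `y` -/
noncomputable def seq (A L : Set G) (y : G) : I → G :=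
  WellFounded.fix (wellFounded_lt (α := I))
    (fun i ih => rep A (L ∪ {g | ∃ (j : I) (hj : j < i), g = ih j hj}) y)

/-- the set of earlier elements -/
def prev (L : Set G) (h : I → G) (i : I) : Set G := L ∪ {g | ∃ j < i, g = h j}

lemma seq_eq (A L : Set G) (y : G) (i : I) :
    seq A L y i = rep A (prev L (seq A L y) i) y := by
  conv_lhs => rw [seq, WellFounded.fix_eq]
  unfold prev
  congr 2
  ext g
  constructor
  · rintro ⟨j, hj, h⟩
    exact ⟨j, hj, h⟩
  · rintro ⟨j, hj, h⟩
    exact ⟨j, hj, h⟩

/-- values of indices -/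
def val (L : Set G) (h : I → G) : L ⊕ I → G := Sum.elim (fun l => (l : G)) h

lemma seq_congr (A L : Set G) {y y' : G}
    (hyy : ∀ u v : L ⊕ I, Mir y (val L (seq A L y) u) (val L (seq A L y) v) ↔
      Mir y' (val L (seq A L y') u) (val L (seq A L y') v)) (i : I) :
    seq A L y i = seq A L y' i := by
  induction i using WellFoundedLT.induction with
  | ind i ih =>
    have hprev : prev L (seq A L y) i = prev L (seq A L y') i := by
      unfold prev
      congr 1
      ext g
      constructor
      · rintro ⟨j, hj, rfl⟩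
        exact ⟨j, hj, ih j hj⟩
      · rintro ⟨j, hj, rfl⟩
        exact ⟨j, hj, (ih j hj).symm⟩
    rw [seq_eq, seq_eq, ← hprev]
    apply rep_congr
    have hcode : ∀ x ∈ prev L (seq A L y) i, ∃ u : L ⊕ I,
        val L (seq A L y) u = x ∧ val L (seq A L y') u = x := by
      rintro x (hx | ⟨j, hj, rfl⟩)
      · exact ⟨Sum.inl ⟨x, hx⟩, rfl, rfl⟩
      · exact ⟨Sum.inr j, rfl, (ih j hj).symm⟩
    intro x hx z hz
    obtain ⟨u, hu, hu'⟩ := hcode x hx
    obtain ⟨v, hv, hv'⟩ := hcode z hz
    have := hyy u v
    rw [hu, hu', hv, hv'] at this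
    exact this

/-- the block lemma -/
theorem exists_block (A L : Set G) (hI : ℵ₀ ≤ #I) (hL : #L ≤ #I) (hA : 2 ^ #I < #A) :
    ∃ (y : G) (h : I → G), ∀ i, h i ∈ A ∧ h i ∉ Subgroup.closure (prev L h i) ∧
      ∀ x ∈ prev L h i, ∀ z ∈ prev L h i, (Mir (h i) x z ↔ Mir y x z) := by
  classical
  by_cases hex : ∃ y ∈ A, ∀ i : I, y ∉ Subgroup.closure (prev L (seq A L y) i)
  · obtain ⟨y, hyA, hy⟩ := hex
    refine ⟨y, seq A L y, fun i => ?_⟩
    have hc : ∃ a, Cand A (prev L (seq A L y) i) y a :=
      ⟨y, hyA, hy i, fun x _ z _ => Iff.rfl⟩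
    have := rep_spec hc
    rw [← seq_eq] at this
    exact this
  · exfalso
    push Not at hex
    -- every element of `A` is a word in its sequence
    have hword : ∀ y : A, ∃ w : FreeGroup (L ⊕ I),
        FreeGroup.lift (val L (seq A L (y : G))) w = y := by
      intro y
      obtain ⟨i, hi⟩ := hex y y.2
      have h1 : prev L (seq A L (y : G)) i ⊆ Set.range (val L (seq A L (y : G) : I → G)) := by
        rintro x (hx | ⟨j, hj, rfl⟩)
        · exact ⟨Sum.inl ⟨x, hx⟩, rfl⟩
        · exact ⟨Sum.inr j, rfl⟩
      have h2 := Subgroup.closure_mono h1 hi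
      rw [← FreeGroup.range_lift_eq_closure] at h2
      exact h2
    choose w hw using hword
    let code : A → Set ((L ⊕ I) × (L ⊕ I)) × FreeGroup (L ⊕ I) := fun y =>
      ({p | Mir (y : G) (val L (seq A L (y : G)) p.1) (val L (seq A L (y : G)) p.2)}, w y)
    have hinj : Function.Injective code := by
      intro y y' hyy
      have h1 := congrArg Prod.fst hyy
      have h2 := congrArg Prod.snd hyy
      have h3 : (seq A L (y : G) : I → G) = seq A L (y' : G) := by
        funext i
        apply seq_congr
        intro u v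
        have := Set.ext_iff.mp h1 (u, v)
        exact this
      apply Subtype.ext
      rw [← hw y, ← hw y', h3]
      congr 1
    have hle := mk_le_of_injective hinj
    have hLI : #(L ⊕ I) = #I := by
      rw [mk_sum, lift_id, lift_id]
      exact add_eq_right hI hL
    have hne : Nonempty (L ⊕ I) := by
      rw [← mk_ne_zero_iff, hLI]
      exact (aleph0_pos.trans_le hI).ne'
    have hbound : #(Set ((L ⊕ I) × (L ⊕ I)) × FreeGroup (L ⊕ I)) ≤ 2 ^ #I := by
      rw [mk_prod, lift_id, lift_id, mk_set, mk_prod, mk_freeGroup, lift_id, hLI,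
        mul_eq_self hI, max_eq_left hI]
      calc 2 ^ #I * #I ≤ 2 ^ #I * 2 ^ #I := by
            gcongr
            exact (cantor _).le
        _ = 2 ^ #I := mul_eq_self (hI.trans (cantor _).le)
    exact absurd (hle.trans hbound) (not_le.mpr hA)

end

end Pool.Agent.Lib.MP_af815a_al
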