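import Mathlib

set_option autoImplicit false

universe u

open Cardinal

namespace Pool.Agent.Lib.MP_af815a_al.Cent

variable {G : Type u} [Group G]

/-- Admissible sets. -/
def Adm (H : Set G) : Prop := ∀ x ∈ H, ∀ y ∈ H, ∀ z ∈ H, x⁻¹ * y = y⁻¹ * z → x = z

/-- The minimal condition on centralizers of cardinality above `lam`. -/
def MinCent (G : Type u) [Group G] (lam : Cardinal.{u}) : Prop :=
  ∀ F : Set (Set G), F.Nonempty → (∀ S ∈ F, lam < #(Set.centralizer S)) →
    ∃ S ∈ F, ∀ T ∈ F, Set.centralizer T ⊆ Set.centralizer S →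
      Set.centralizer T = Set.centralizer S

/-- There is a maximal admissible set, and the group is covered accordingly. -/
lemma exists_max : ∃ H : Set G, Adm H ∧ ∀ w : G, ∃ x ∈ H, ∃ z ∈ H,
    w = x ∨ w = z * x⁻¹ * z ∨ w * x⁻¹ * w = z := by
  obtain ⟨H, hH⟩ : ∃ H : Set G, Maximal (fun H : Set G => Adm H) H := by
    have := zorn_subset {H : Set G | Adm H} (by
      intro c hc hchain
      refine ⟨⋃₀ c, ?_, fun s hs => Set.subset_sUnion_of_mem hs⟩
      rintro x ⟨s, hs, hxs⟩ y ⟨t, ht, hyt⟩ z ⟨r, hr, hzr⟩ h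
      rcases hchain.total hs ht with h1 | h1
      · rcases hchain.total ht hr with h2 | h2
        · exact hc hr x (h2 (h1 hxs)) y (h2 hyt) z hzr h
        · exact hc ht x (h1 hxs) y hyt z (h2 hzr) h
      · rcases hchain.total hs hr with h2 | h2
        · exact hc hr x (h2 hxs) y (h2 (h1 hyt)) z hzr h
        · exact hc hs x hxs y (h1 hyt) z (h2 hzr) h)
    exact this
  refine ⟨H, hH.prop, fun w => ?_⟩
  by_cases hw : w ∈ H
  · exact ⟨w, hw, w, hw, Or.inl rfl⟩
  have hnot : ¬ Adm (insert w H) := by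
    intro had
    have := hH.le_of_ge had (Set.subset_insert w H)
    exact hw (this (Set.mem_insert w H))
  unfold Adm at hnot
  push Not at hnot
  obtain ⟨x, hx, y, hy, z, hz, hxyz, hne⟩ := hnot
  have hz' : z = y * x⁻¹ * y := by
    have : y * (x⁻¹ * y) = y * (y⁻¹ * z) := by rw [hxyz]
    rw [mul_assoc, this, mul_inv_cancel_left]
  rcases hx with rfl | hx
  · -- x = w
    rcases hz with rfl | hz
    · exact absurd rfl hne
    rcases hy with rfl | hy
    · exfalso; apply hne; rw [hz']; group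
    · refine ⟨z, hz, y, hy, Or.inr (Or.inl ?_)⟩
      rw [hz']; group
  · rcases hy with rfl | hy
    · rcases hz with rfl | hz
      · exfalso; apply hne
        have : x⁻¹ * z = 1 := by rw [hxyz]; group
        have := inv_mul_eq_one.1 this
        exact this
      · exact ⟨x, hx, z, hz, Or.inr (Or.inr hz'.symm)⟩
    · rcases hz with rfl | hz
      · exact ⟨x, hx, y, hy, Or.inr (Or.inl hz')⟩
      · exact absurd (hH.prop x hx y hy z hz hxyz) hne

/-- A group of infinite cardinality covered by few small sets. -/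
lemma exists_regular (κ μ : Cardinal.{u}) (hκ : ℵ₀ ≤ κ) (hμ : μ < κ) :
    ∃ ρ : Cardinal.{u}, ρ.IsRegular ∧ μ < ρ ∧ ρ ≤ κ := by
  by_cases h : κ.IsRegular
  · exact ⟨κ, h, hμ, le_rfl⟩
  · have h0 : ℵ₀ ≠ κ := by
      rintro rfl
      exact h Cardinal.isRegular_aleph0
    refine ⟨Order.succ (max μ ℵ₀), Cardinal.isRegular_succ (le_max_right _ _), ?_, ?_⟩
    · exact lt_of_le_of_lt (le_max_left _ _) (Order.lt_succ _)
    · exact Order.succ_le_of_lt (max_lt hμ (lt_of_le_of_ne hκ h0))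

/-- Abelian groups. -/
lemma abelian [Infinite G] (hcomm : ∀ a b : G, a * b = b * a) :
    ∃ H : Set G, Adm H ∧ #H = #G := by
  by_cases hA : #{a : G | a * a = 1} = #G
  · refine ⟨{a : G | a * a = 1}, ?_, hA⟩
    intro x hx y hy z hz h
    have hx' : x⁻¹ = x := inv_eq_of_mul_eq_one_right hx
    have hy' : y⁻¹ = y := inv_eq_of_mul_eq_one_right hy
    rw [hx', hy', hcomm x y] at h
    exact mul_left_cancel h
  · have hA' : #{a : G | a * a = 1} < #G := lt_of_le_of_ne (mk_set_le _) hA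
    obtain ⟨H, hH, hcov⟩ := exists_max (G := G)
    refine ⟨H, hH, le_antisymm (mk_set_le _) ?_⟩
    by_contra hlt
    rw [not_le] at hlt
    have hinf : ℵ₀ ≤ #G := aleph0_le_mk G
    -- cover
    have hsub : (Set.univ : Set G) ⊆ ⋃ p : H × H, (({(p.1 : G)} ∪ {(p.2 : G) * (p.1 : G)⁻¹ * p.2}) ∪
        {w : G | w * (p.1 : G)⁻¹ * w = p.2}) := by
      intro w _
      obtain ⟨x, hx, z, hz, h⟩ := hcov w
      refine Set.mem_iUnion.2 ⟨(⟨x, hx⟩, ⟨z, hz⟩), ?_⟩
      rcases h with h | h | h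
      · exact Or.inl (Or.inl h)
      · exact Or.inl (Or.inr h)
      · exact Or.inr h
    have hsmall : ∀ x z : G, #{w : G | w * x⁻¹ * w = z} ≤ #{a : G | a * a = 1} := by
      intro x z
      by_cases hne : ∃ w₀ : G, w₀ * x⁻¹ * w₀ = z
      · obtain ⟨w₀, hw₀⟩ := hne
        refine mk_le_of_injective (f := fun w : {w : G | w * x⁻¹ * w = z} =>
          (⟨w.1 * w₀⁻¹, ?_⟩ : {a : G | a * a = 1})) ?_
        · have hw : (w : G) * x⁻¹ * w = z := w.2
          have h1 : (w : G) * w * x⁻¹ = w₀ * w₀ * x⁻¹ := by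
            calc (w : G) * w * x⁻¹ = w * x⁻¹ * w := by rw [mul_assoc, mul_assoc, hcomm (w : G) x⁻¹]
              _ = w₀ * x⁻¹ * w₀ := by rw [hw, hw₀]
              _ = w₀ * w₀ * x⁻¹ := by rw [mul_assoc, hcomm x⁻¹ w₀, ← mul_assoc]
          have h2 : (w : G) * w = w₀ * w₀ := mul_right_cancel h1
          change (w : G) * w₀⁻¹ * (w * w₀⁻¹) = 1
          calc (w : G) * w₀⁻¹ * (w * w₀⁻¹) = w * (w₀⁻¹ * w) * w₀⁻¹ := by group
            _ = w * (w * w₀⁻¹) * w₀⁻¹ := by rw [hcomm w₀⁻¹ w]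
            _ = (w * w) * w₀⁻¹ * w₀⁻¹ := by group
            _ = 1 := by rw [h2]; group
        · intro a b hab
          have : (a : G) * w₀⁻¹ = b * w₀⁻¹ := congrArg Subtype.val hab
          exact Subtype.ext (mul_right_cancel this)
      · have : {w : G | w * x⁻¹ * w = z} = ∅ := by
          ext w
          simp only [Set.mem_ofPred_eq, Set.mem_empty_iff_false, iff_false]
          exact fun h => hne ⟨w, h⟩
        rw [this, mk_eq_zero]
        exact zero_le
    have hle : #G ≤ #(H × H) * (1 + 1 + #{a : G | a * a = 1}) := by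
      calc #G = #(Set.univ : Set G) := mk_univ.symm
        _ ≤ _ := mk_le_mk_of_subset hsub
        _ ≤ #(H × H) * ⨆ p : H × H, #↥(({(p.1 : G)} ∪ {(p.2 : G) * (p.1 : G)⁻¹ * p.2}) ∪
        {w : G | w * (p.1 : G)⁻¹ * w = p.2}) := mk_iUnion_le _
        _ ≤ #(H × H) * (1 + 1 + #{a : G | a * a = 1}) := by
          gcongr
          apply ciSup_le'
          intro p
          refine (mk_union_le _ _).trans (add_le_add ((mk_union_le _ _).trans ?_) (hsmall _ _))
          rw [mk_singleton, mk_singleton]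
    have hlt2 : #(H × H) * (1 + 1 + #{a : G | a * a = 1}) < #G := by
      apply mul_lt_of_lt hinf
      · rw [mk_prod, lift_id]
        exact mul_lt_of_lt hinf hlt hlt
      · apply add_lt_of_lt hinf
        · apply add_lt_of_lt hinf <;> exact lt_of_lt_of_le one_lt_aleph0 hinf
        · exact hA'
    exact absurd hle (not_le.2 hlt2)

/-- The set of solutions of a finite system of equations `w x⁻¹ w = z`. -/
def Y (T : Finset (G × G)) : Set G := {w | ∀ p ∈ T, w * p.1⁻¹ * w = p.2}

lemma Y_insert (T : Finset (G × G)) (p : G × G) [DecidableEq (G × G)] (w : G) :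
    w ∈ Y (insert p T) ↔ w * p.1⁻¹ * w = p.2 ∧ w ∈ Y T := by
  constructor
  · intro h
    exact ⟨h p (Finset.mem_insert_self _ _), fun q hq => h q (Finset.mem_insert_of_mem hq)⟩
  · rintro ⟨h1, h2⟩ q hq
    rcases Finset.mem_insert.1 hq with rfl | hq
    · exact h1
    · exact h2 q hq

/-- If `w, w'` solve the same equation then `d = w' w⁻¹` is inverted by `w x⁻¹`. -/
lemma inv_of_sol {w w' x z : G} (h : w * x⁻¹ * w = z) (h' : w' * x⁻¹ * w' = z) :
    (w' * w⁻¹) * (w * x⁻¹) * (w' * w⁻¹) = w * x⁻¹ := by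
  have : w' * x⁻¹ * w' = w * x⁻¹ * w := h'.trans h.symm
  calc (w' * w⁻¹) * (w * x⁻¹) * (w' * w⁻¹) = (w' * x⁻¹ * w') * w⁻¹ := by group
    _ = w * x⁻¹ * w * w⁻¹ := by rw [this]
    _ = w * x⁻¹ := by group

/-- If `u` inverts `d`, and `u s` inverts `d`, then `s` commutes with `d`. -/
lemma comm_of_inv {d u s : G} (h : d * u * d = u) (h' : d * (u * s) * d = u * s) :
    s * d = d * s := by
  have h1 : d * u = u * d⁻¹ := by
    rw [eq_mul_inv_iff_mul_eq]; exact h
  have h2 : u * (d⁻¹ * s * d) = u * s := by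
    calc u * (d⁻¹ * s * d) = (u * d⁻¹) * s * d := by group
      _ = d * u * s * d := by rw [h1]
      _ = u * s := by rw [← h']; group
  have h3 := mul_left_cancel h2
  calc s * d = d * (d⁻¹ * s * d) := by group
    _ = d * s := by rw [h3]

lemma sol_of_comm {d u s w : G} (h : d * u * d = u) (hs : s * d = d * s) :
    (d * w) * (w⁻¹ * (u * s)) * (d * w) = w * (w⁻¹ * (u * s)) * w := by
  calc (d * w) * (w⁻¹ * (u * s)) * (d * w) = d * u * (s * d) * w := by group
    _ = (d * u * d) * s * w := by rw [hs]; group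
    _ = w * (w⁻¹ * (u * s)) * w := by rw [h]; group

/-- A solution set which is minimal among those of cardinality at least `ρ`. -/
lemma exists_minimal {lam ρ : Cardinal.{u}} (hρ : ρ ≤ #G) (hρ0 : ρ ≠ 0) (hlam : lam < ρ)
    (hmin : MinCent G lam) : ∃ T : Finset (G × G), ρ ≤ #(Y T) ∧
      ∀ p : G × G, ρ ≤ #{w ∈ Y T | w * p.1⁻¹ * w = p.2} → ∀ w ∈ Y T, w * p.1⁻¹ * w = p.2 := by
  classical
  by_cases hA : ∀ p : G × G, #{w : G | w * p.1⁻¹ * w = p.2} < ρ
  · refine ⟨∅, ?_, fun p hp => ?_⟩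
    · have : Y (∅ : Finset (G × G)) = Set.univ := by
        ext w; simp [Y]
      rw [this, mk_univ]
      exact hρ
    · exact absurd (hp.trans (mk_le_mk_of_subset fun w hw => hw.2)) (not_le.2 (hA p))
  push Not at hA
  obtain ⟨p₀, hp₀⟩ := hA
  -- the family
  let σ : Finset (G × G) → Set G := fun T => (fun p : G × G => p₀.1 * p.1⁻¹) '' (T : Set (G × G))
  let F : Set (Set G) := {S | ∃ T : Finset (G × G), p₀ ∈ T ∧ ρ ≤ #(Y T) ∧ S = σ T}
  have hcentr : ∀ T : Finset (G × G), p₀ ∈ T → ∀ w ∈ Y T, ∀ w' ∈ Y T,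
      w' * w⁻¹ ∈ Set.centralizer (σ T) := by
    intro T hT w hw w' hw' s hs
    obtain ⟨p, hp, rfl⟩ := hs
    refine comm_of_inv (u := w * p₀.1⁻¹) (inv_of_sol (hw p₀ hT) (hw' p₀ hT)) ?_
    have := inv_of_sol (hw p hp) (hw' p hp)
    have he : w * p₀.1⁻¹ * (p₀.1 * p.1⁻¹) = w * p.1⁻¹ := by group
    simp only [he]
    exact this
  have hsize : ∀ T : Finset (G × G), p₀ ∈ T → ρ ≤ #(Y T) → ρ ≤ #(Set.centralizer (σ T)) := by
    intro T hT hYT
    have hne : (Y T).Nonempty := by
      rw [← mk_set_ne_zero_iff]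
      intro h0
      rw [h0] at hYT
      exact hρ0 (le_antisymm hYT zero_le)
    obtain ⟨w, hw⟩ := hne
    refine hYT.trans (mk_le_of_injective
      (f := fun w' : Y T => (⟨w' * w⁻¹, hcentr T hT w hw w' w'.2⟩ : Set.centralizer (σ T))) ?_)
    intro a b hab
    exact Subtype.ext (mul_right_cancel (congrArg Subtype.val hab))
  obtain ⟨S, ⟨T, hT, hYT, rfl⟩, hmin'⟩ := hmin F ⟨_, {p₀}, by simp, by
      have : Y ({p₀} : Finset (G × G)) = {w : G | w * p₀.1⁻¹ * w = p₀.2} := by
        ext w; simp [Y]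
      rw [this]; exact hp₀, rfl⟩ (by
    rintro S ⟨T, hT, hYT, rfl⟩
    exact hlam.trans_le (hsize T hT hYT))
  refine ⟨T, hYT, fun p hp w' hw' => ?_⟩
  have hYi : Y (insert p T) = {w ∈ Y T | w * p.1⁻¹ * w = p.2} := by
    ext w
    rw [Y_insert]
    exact And.comm
  have hne : (Y (insert p T)).Nonempty := by
    rw [← mk_set_ne_zero_iff, hYi]
    intro h0
    rw [h0] at hp
    exact hρ0 (le_antisymm hp zero_le)
  obtain ⟨w, hw⟩ := hne
  have heq := hmin' (σ (insert p T)) ⟨insert p T, Finset.mem_insert_of_mem hT, by rw [hYi]; exact hp,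
    rfl⟩ (Set.centralizer_subset (Set.image_mono (by simp)))
  have hwT : w ∈ Y T := ((Y_insert T p w).1 hw).2
  have hwp : w * p.1⁻¹ * w = p.2 := ((Y_insert T p w).1 hw).1
  have hd : w' * w⁻¹ ∈ Set.centralizer (σ (insert p T)) := by
    rw [heq]
    exact hcentr T hT w hwT w' hw'
  have hs := hd (p₀.1 * p.1⁻¹) ⟨p, by simp, rfl⟩
  have hu := inv_of_sol (hwT p₀ hT) (hw' p₀ hT)
  have := sol_of_comm (w := w) hu hs
  have he : w⁻¹ * (w * p₀.1⁻¹ * (p₀.1 * p.1⁻¹)) = p.1⁻¹ := by group
  have he2 : w' * w⁻¹ * w = w' := by group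
  rw [he, he2] at this
  rw [this, hwp]

/-- The main step. -/
lemma main_step [Infinite G] {lam : Cardinal.{u}} (hlam : lam < #G) (hmin : MinCent G lam)
    (hfull : ∀ S : Set G, #(Set.centralizer S) = #G → Set.centralizer S = Set.univ)
    (hcen : #(Set.centralizer (Set.univ : Set G)) < #G) : ∃ H : Set G, Adm H ∧ #H = #G := by
  classical
  obtain ⟨H, hH, hcov⟩ := exists_max (G := G)
  refine ⟨H, hH, le_antisymm (mk_set_le _) ?_⟩
  by_contra hlt
  rw [not_le] at hlt
  have hinf : ℵ₀ ≤ #G := aleph0_le_mk G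
  obtain ⟨ρ, hρreg, hρ1, hρ2⟩ := exists_regular #G (max (max lam #H)
    #(Set.centralizer (Set.univ : Set G))) hinf (max_lt (max_lt hlam hlt) hcen)
  have hlamρ : lam < ρ := lt_of_le_of_lt ((le_max_left _ _).trans (le_max_left _ _)) hρ1
  have hHρ : #H < ρ := lt_of_le_of_lt ((le_max_right _ _).trans (le_max_left _ _)) hρ1
  have hcρ : #(Set.centralizer (Set.univ : Set G)) < ρ := lt_of_le_of_lt (le_max_right _ _) hρ1
  obtain ⟨T, hYT, hT⟩ := exists_minimal hρ2 hρreg.pos.ne' hlamρ hmin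
  have hne : (Y T).Nonempty := by
    rw [← mk_set_ne_zero_iff]
    intro h0
    rw [h0] at hYT
    exact hρreg.pos.ne' (le_antisymm hYT zero_le)
  obtain ⟨w₀, hw₀⟩ := hne
  -- for every `g` the translate of `Y T` solves one equation
  have hg : ∀ g : G, ∃ x ∈ H, ∃ z ∈ H, ∀ w ∈ Y T, w * g * x⁻¹ * (w * g) = z := by
    intro g
    by_contra hcon
    push Not at hcon
    have hsub : Y T ⊆ ⋃ p : H × H, (({(p.1 : G) * g⁻¹} ∪ {(p.2 : G) * (p.1 : G)⁻¹ * p.2 * g⁻¹}) ∪
        {w ∈ Y T | w * ((p.1 : G) * g⁻¹)⁻¹ * w = p.2 * g⁻¹}) := by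
      intro w hw
      obtain ⟨x, hx, z, hz, h⟩ := hcov (w * g)
      refine Set.mem_iUnion.2 ⟨(⟨x, hx⟩, ⟨z, hz⟩), ?_⟩
      rcases h with h | h | h
      · left; left
        simp only [Set.mem_singleton_iff]
        rw [← h]; group
      · left; right
        simp only [Set.mem_singleton_iff]
        rw [← h]; group
      · right
        refine ⟨hw, ?_⟩
        simp only
        rw [← h]; group
    have hcard : #(Y T) < ρ := by
      refine lt_of_le_of_lt (mk_le_mk_of_subset hsub) ?_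
      refine (card_iUnion_lt_iff_forall_of_isRegular hρreg ?_).2 ?_
      · rw [mk_prod, lift_id]
        exact mul_lt_of_lt hρreg.aleph0_le hHρ hHρ
      · intro p
        refine lt_of_le_of_lt (mk_union_le _ _) (add_lt_of_lt hρreg.aleph0_le ?_ ?_)
        · refine lt_of_le_of_lt (mk_union_le _ _) (add_lt_of_lt hρreg.aleph0_le ?_ ?_) <;>
          · rw [mk_singleton]
            exact lt_of_lt_of_le one_lt_aleph0 hρreg.aleph0_le
        · by_contra hge
          rw [not_lt] at hge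
          obtain ⟨w, hw, hw'⟩ := hcon p.1 p.1.2 p.2 p.2.2
          apply hw'
          have := hT ((p.1 : G) * g⁻¹, (p.2 : G) * g⁻¹) hge w hw
          simp only at this
          calc w * g * (p.1 : G)⁻¹ * (w * g) = (w * ((p.1 : G) * g⁻¹)⁻¹ * w) * g := by group
            _ = (p.2 : G) * g⁻¹ * g := by rw [this]
            _ = p.2 := by group
    exact absurd hYT (not_le.2 hcard)
  -- the set of elements inverting `D`
  let D : Set G := (fun w => w * w₀⁻¹) '' (Y T)
  let N : Set G := {u | ∀ d ∈ D, d * u * d = u}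
  have hN : ∀ g : G, ∃ x ∈ H, w₀ * g * x⁻¹ ∈ N := by
    intro g
    obtain ⟨x, hx, z, hz, h⟩ := hg g
    refine ⟨x, hx, ?_⟩
    rintro d ⟨w, hw, rfl⟩
    have h1 := h w hw
    have h0 := h w₀ hw₀
    have h2 : w * g * x⁻¹ * (w * g) = w₀ * g * x⁻¹ * (w₀ * g) := h1.trans h0.symm
    calc w * w₀⁻¹ * (w₀ * g * x⁻¹) * (w * w₀⁻¹) = (w * g * x⁻¹ * (w * g)) * g⁻¹ * w₀⁻¹ := by group
      _ = (w₀ * g * x⁻¹ * (w₀ * g)) * g⁻¹ * w₀⁻¹ := by rw [h2]
      _ = w₀ * g * x⁻¹ := by group
  have hNcard : #G ≤ #(H × N) := by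
    choose x hx hxN using hN
    refine mk_le_of_injective (f := fun g : G => ((⟨x g, hx g⟩, ⟨w₀ * g * (x g)⁻¹, hxN g⟩) : H × N)) ?_
    intro a b hab
    have h1 : x a = x b := congrArg Subtype.val (congrArg Prod.fst hab)
    have h2 : w₀ * a * (x a)⁻¹ = w₀ * b * (x b)⁻¹ := congrArg Subtype.val (congrArg Prod.snd hab)
    rw [h1] at h2
    exact mul_left_cancel (mul_right_cancel h2)
  have hNle : #N ≤ #(Set.centralizer D) := by
    by_cases hNe : N.Nonempty
    · obtain ⟨n₀, hn₀⟩ := hNe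
      refine mk_le_of_injective (f := fun u : N => (⟨n₀⁻¹ * u, ?_⟩ : Set.centralizer D)) ?_
      · intro d hd
        have h1 : d * n₀ * d = n₀ := hn₀ d hd
        have h2 : d * (u : G) * d = u := u.2 d hd
        have h3 : n₀⁻¹ * d⁻¹ = d * n₀⁻¹ := by
          have : n₀ * d = d⁻¹ * n₀ := by
            rw [eq_inv_mul_iff_mul_eq, ← mul_assoc]; exact h1
          calc n₀⁻¹ * d⁻¹ = n₀⁻¹ * (d⁻¹ * n₀) * n₀⁻¹ := by group
            _ = n₀⁻¹ * (n₀ * d) * n₀⁻¹ := by rw [this]
            _ = d * n₀⁻¹ := by group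
        have h4 : (u : G) * d = d⁻¹ * u := by
          rw [eq_inv_mul_iff_mul_eq, ← mul_assoc]; exact h2
        calc d * (n₀⁻¹ * u) = (d * n₀⁻¹) * u := by group
          _ = n₀⁻¹ * (d⁻¹ * u) := by rw [← h3]; group
          _ = n₀⁻¹ * u * d := by rw [← h4]; group
      · intro a b hab
        exact Subtype.ext (mul_left_cancel (congrArg Subtype.val hab))
    · rw [Set.not_nonempty_iff_eq_empty] at hNe
      rw [hNe, mk_eq_zero]
      exact zero_le
  have hcD : #(Set.centralizer D) = #G := by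
    refine le_antisymm (mk_set_le _) ?_
    by_contra hlt'
    rw [not_le] at hlt'
    simp only [mk_prod, lift_id] at hNcard
    exact absurd hNcard (not_le.2 (mul_lt_of_lt hinf hlt (lt_of_le_of_lt hNle hlt')))
  have hDc := hfull D hcD
  have hDsub : D ⊆ Set.centralizer (Set.univ : Set G) := by
    intro d hd g _
    have : g ∈ Set.centralizer D := by rw [hDc]; trivial
    exact (this d hd).symm
  have hDcard : #(Y T) ≤ #D := by
    rw [mk_image_eq]
    intro a b hab
    exact mul_right_cancel hab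
  exact absurd (hYT.trans (hDcard.trans (mk_le_mk_of_subset hDsub))) (not_le.2 hcρ)

/-- Groups with the minimal condition on large centralizers. -/
theorem exists_adm [Infinite G] {lam : Cardinal.{u}} (hlam : lam < #G) (hmin : MinCent G lam) :
    ∃ H : Set G, Adm H ∧ #H = #G := by
  classical
  -- a minimal centralizer of full size
  obtain ⟨S₀, hS₀, hS₀min⟩ := hmin {S | #(Set.centralizer S) = #G} ⟨∅, by simp⟩ (by
    intro S hS
    rw [Set.mem_ofPred_eq] at hS
    rw [hS]; exact hlam)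
  let K : Subgroup G := Subgroup.centralizer S₀
  have hKS : (K : Set G) = Set.centralizer S₀ := rfl
  have hKcard : #K = #G := hS₀
  have hKinf : Infinite K := by
    rw [infinite_iff, hKcard]; exact aleph0_le_mk G
  -- centralizers in `K`
  have hcK : ∀ S : Set K, (fun k : K => (k : G)) '' (Set.centralizer S) =
      Set.centralizer (S₀ ∪ (fun k : K => (k : G)) '' S) := by
    intro S
    ext g
    constructor
    · rintro ⟨k, hk, rfl⟩
      intro m hm
      rcases hm with hm | ⟨s, hs, rfl⟩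
      · exact k.2 m hm
      · exact congrArg Subtype.val (hk s hs)
    · intro hg
      have hgK : g ∈ K := fun m hm => hg m (Or.inl hm)
      refine ⟨⟨g, hgK⟩, ?_, rfl⟩
      intro s hs
      exact Subtype.ext (hg s (Or.inr ⟨s, hs, rfl⟩))
  have hcKcard : ∀ S : Set K, #(Set.centralizer S) =
      #(Set.centralizer (S₀ ∪ (fun k : K => (k : G)) '' S)) := by
    intro S
    rw [← hcK S, mk_image_eq Subtype.val_injective]
  have hfull : ∀ S : Set K, #(Set.centralizer S) = #K → Set.centralizer S = Set.univ := by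
    intro S hS
    have h1 : #(Set.centralizer (S₀ ∪ (fun k : K => (k : G)) '' S)) = #G := by
      rw [← hcKcard S, hS, hKcard]
    have h2 := hS₀min _ h1 (Set.centralizer_subset Set.subset_union_left)
    rw [Set.eq_univ_iff_forall]
    intro k
    have h3 : (k : G) ∈ Set.centralizer S₀ := k.2
    rw [← h2, ← hcK S] at h3
    obtain ⟨k', hk', hkk'⟩ := h3
    have : k' = k := Subtype.ext hkk'
    rwa [← this]
  have hex : ∃ H : Set K, Adm H ∧ #H = #K := by
    by_cases hcomm : ∀ a b : K, a * b = b * a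
    · exact abelian hcomm
    · refine main_step (lam := lam) (by rw [hKcard]; exact hlam) ?_ hfull ?_
      · -- minimal condition
        intro F hF hFlam
        obtain ⟨S', ⟨S, hSF, rfl⟩, hmin'⟩ := hmin
          ((fun S : Set K => S₀ ∪ (fun k : K => (k : G)) '' S) '' F) (hF.image _) (by
          rintro S' ⟨S, hS, rfl⟩
          simp only
          rw [← hcKcard S]
          exact hFlam S hS)
        refine ⟨S, hSF, fun T hT hTS => ?_⟩
        have := hmin' _ ⟨T, hT, rfl⟩ (by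
          simp only
          rw [← hcK T, ← hcK S]
          exact Set.image_mono hTS)
        simp only at this
        rw [← hcK T, ← hcK S] at this
        exact Set.image_injective.2 Subtype.val_injective this
      · refine lt_of_le_of_ne (mk_set_le _) fun h => hcomm fun a b => ?_
        have := hfull Set.univ h
        have hb : b ∈ Set.centralizer (Set.univ : Set K) := by rw [this]; trivial
        exact hb a trivial
  obtain ⟨H, hH, hHc⟩ := hex
  refine ⟨(fun k : K => (k : G)) '' H, ?_, ?_⟩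
  · rintro _ ⟨x, hx, rfl⟩ _ ⟨y, hy, rfl⟩ _ ⟨z, hz, rfl⟩ h
    have : x⁻¹ * y = y⁻¹ * z := Subtype.ext h
    exact congrArg Subtype.val (hH x hx y hy z hz this)
  · rw [mk_image_eq Subtype.val_injective, hHc, hKcard]

end Pool.Agent.Lib.MP_af815a_al.Cent
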