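import Mathlib

set_option autoImplicit false

/-!
# Conditions: finite groups with finitely many generators

Let `I` be a linear order.  A condition is a finite subset `F` of `I` and a map `φ` from `F` to a
finite group of permutations (extended by `1` to a map on `I`).  For `α ∈ F` the value of `φ` at
`α` is not in the group generated by the values at the smaller elements of `F`.
-/

namespace Pool.Agent.MP_af815a_al

open Cardinal

universe u

/-- Conditions. -/
structure Cond (I : Type u) [LinearOrder I] where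
  F : Finset I
  m : ℕ
  φ : I → Equiv.Perm (Fin m)
  supp : ∀ α, α ∉ F → φ α = 1
  indep : ∀ α ∈ F, φ α ∉ Subgroup.closure (φ '' {β | β ∈ F ∧ β < α})

variable {I : Type u} [LinearOrder I]

/-- The homomorphism of the free group given by a condition. -/
def Cond.hom (p : Cond I) : FreeGroup I →* Equiv.Perm (Fin p.m) := FreeGroup.lift p.φ

/-- The subgroup of the free group generated by a finite set of generators. -/
def Wd (F : Finset I) : Subgroup (FreeGroup I) := Subgroup.closure (FreeGroup.of '' (F : Set I))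

omit [LinearOrder I] in
theorem Wd_mono {F G : Finset I} (h : F ⊆ G) : Wd F ≤ Wd G :=
  Subgroup.closure_mono (Set.image_mono (by exact_mod_cast h))

omit [LinearOrder I] in
theorem of_mem_Wd {F : Finset I} {α : I} (h : α ∈ F) : FreeGroup.of α ∈ Wd F :=
  Subgroup.subset_closure ⟨α, by exact_mod_cast h, rfl⟩

omit [LinearOrder I] in
theorem exists_Wd (w : FreeGroup I) : ∃ F : Finset I, w ∈ Wd F := by
  classical
  induction w using FreeGroup.induction_on with
  | C1 => exact ⟨∅, one_mem _⟩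
  | of x => exact ⟨{x}, of_mem_Wd (by simp)⟩
  | inv_of x _ => exact ⟨{x}, inv_mem (of_mem_Wd (by simp))⟩
  | mul x y hx hy =>
    obtain ⟨F, hF⟩ := hx
    obtain ⟨G, hG⟩ := hy
    exact ⟨F ∪ G, mul_mem (Wd_mono Finset.subset_union_left hF)
      (Wd_mono Finset.subset_union_right hG)⟩

instance : Preorder (Cond I) where
  le q p := p.F ⊆ q.F ∧ ∀ w ∈ Wd p.F, q.hom w = 1 ↔ p.hom w = 1
  le_refl _ := ⟨fun _ h => h, fun _ _ => Iff.rfl⟩
  le_trans _ _ _ h₁ h₂ := ⟨fun _ h => h₁.1 (h₂.1 h), fun w hw =>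
    (h₁.2 w (Wd_mono h₂.1 hw)).trans (h₂.2 w hw)⟩

theorem Cond.le_def {p q : Cond I} :
    q ≤ p ↔ p.F ⊆ q.F ∧ ∀ w ∈ Wd p.F, q.hom w = 1 ↔ p.hom w = 1 := Iff.rfl

/-- Conditions with values in an arbitrary finite group. -/
theorem exists_cond {Q : Type*} [Group Q] [Finite Q] (F : Finset I) (ψ : I → Q)
    (h : ∀ α ∈ F, ψ α ∉ Subgroup.closure (ψ '' {β | β ∈ F ∧ β < α})) :
    ∃ q : Cond I, q.F = F ∧ ∀ w ∈ Wd F, q.hom w = 1 ↔ FreeGroup.lift ψ w = 1 := by
  classical
  obtain ⟨m, ⟨e⟩⟩ := Finite.exists_equiv_fin Q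
  let E : Q →* Equiv.Perm (Fin m) :=
    (e.permCongrHom).toMonoidHom.comp (MulAction.toPermHom Q Q)
  have hE : Function.Injective E := by
    have h1 : Function.Injective (MulAction.toPermHom Q Q) := MulAction.toPerm_injective
    exact (e.permCongrHom).injective.comp h1
  let φ : I → Equiv.Perm (Fin m) := fun α => if α ∈ F then E (ψ α) else 1
  have hφ : ∀ α ∈ F, φ α = E (ψ α) := fun α hα => if_pos hα
  refine ⟨⟨F, m, φ, fun α hα => if_neg hα, ?_⟩, rfl, ?_⟩
  · intro α hα hc
    apply h α hα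
    have : φ '' {β | β ∈ F ∧ β < α} = E '' (ψ '' {β | β ∈ F ∧ β < α}) := by
      rw [Set.image_image]
      exact Set.image_congr (fun β hβ => hφ β hβ.1)
    rw [this, ← MonoidHom.map_closure] at hc
    obtain ⟨x, hx, hxe⟩ := hc
    rw [hφ α hα] at hxe
    rw [← hE hxe]
    exact hx
  · intro w hw
    have h2 : Set.EqOn (FreeGroup.lift φ) (E.comp (FreeGroup.lift ψ)) (Wd F) := by
      apply MonoidHom.eqOn_closure
      rintro _ ⟨β, hβ, rfl⟩
      have hβ' : β ∈ F := by exact_mod_cast hβ
      rw [FreeGroup.lift_apply_of, hφ β hβ']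
      show E (ψ β) = E ((FreeGroup.lift ψ) (FreeGroup.of β))
      rw [FreeGroup.lift_apply_of]
    show (FreeGroup.lift φ) w = 1 ↔ _
    rw [h2 hw, MonoidHom.comp_apply]
    constructor
    · intro h3
      exact hE (by rw [h3, map_one])
    · intro h3
      rw [h3, map_one]

/-- Generators can be added. -/
theorem exists_le_mem (p : Cond I) (α : I) : ∃ q ≤ p, α ∈ q.F := by
  classical
  by_cases hα : α ∈ p.F
  · exact ⟨p, le_rfl, hα⟩
  let A := Equiv.Perm (Fin p.m)
  let Q := A × Multiplicative (ZMod 2)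
  let c : Multiplicative (ZMod 2) := Multiplicative.ofAdd 1
  have hc : c ≠ 1 := by decide
  let ψ : I → Q := fun β => if β = α then (1, c) else (p.φ β, 1)
  have hψα : ψ α = (1, c) := if_pos rfl
  have hψ : ∀ β ∈ p.F, ψ β = (p.φ β, 1) := fun β hβ =>
    if_neg (fun h : β = α => hα (h ▸ hβ))
  have hQ : Finite Q := by
    have : Finite A := inferInstance
    infer_instance
  obtain ⟨q, hq, hqw⟩ := exists_cond (insert α p.F) ψ (by
    intro β hβ hmem
    rw [Finset.mem_insert] at hβ
    by_cases hβα : β = α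
    · subst hβα
      have h1 : Subgroup.closure (ψ '' {γ | γ ∈ insert β p.F ∧ γ < β}) ≤
          (MonoidHom.snd A (Multiplicative (ZMod 2))).ker := by
        rw [Subgroup.closure_le]
        rintro _ ⟨γ, ⟨hγ, hγβ⟩, rfl⟩
        rw [Finset.mem_insert] at hγ
        have : ψ γ = (p.φ γ, 1) := hψ γ (hγ.resolve_left hγβ.ne)
        rw [this]
        rfl
      have h2 := h1 hmem
      rw [hψα] at h2
      exact hc h2
    · have hβF : β ∈ p.F := hβ.resolve_left hβα
      have h1 : Subgroup.closure (ψ '' {γ | γ ∈ insert α p.F ∧ γ < β}) ≤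
          (Subgroup.closure (p.φ '' {γ | γ ∈ p.F ∧ γ < β})).comap
            (MonoidHom.fst A (Multiplicative (ZMod 2))) := by
        rw [Subgroup.closure_le]
        rintro _ ⟨γ, ⟨hγ, hγβ⟩, rfl⟩
        rw [Finset.mem_insert] at hγ
        rcases hγ with hγ | hγ
        · subst hγ
          rw [hψα]
          exact one_mem (Subgroup.closure (p.φ '' {γ | γ ∈ p.F ∧ γ < β}))
        · rw [hψ γ hγ]
          exact Subgroup.subset_closure ⟨γ, ⟨hγ, hγβ⟩, rfl⟩
      have h2 := h1 hmem
      rw [hψ β hβF] at h2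
      exact p.indep β hβF h2)
  refine ⟨q, ⟨?_, ?_⟩, ?_⟩
  · rw [hq]
    exact Finset.subset_insert _ _
  · intro w hw
    rw [hqw w (Wd_mono (Finset.subset_insert _ _) hw)]
    have h1 : Set.EqOn (FreeGroup.lift ψ) ((MonoidHom.inl A (Multiplicative (ZMod 2))).comp p.hom)
        (Wd p.F) := by
      apply MonoidHom.eqOn_closure
      rintro _ ⟨β, hβ, rfl⟩
      have hβ' : β ∈ p.F := by exact_mod_cast hβ
      rw [FreeGroup.lift_apply_of, hψ β hβ', MonoidHom.comp_apply, Cond.hom,
        FreeGroup.lift_apply_of]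
      rfl
    rw [h1 hw, MonoidHom.comp_apply]
    constructor
    · intro h
      exact congrArg Prod.fst h
    · intro h
      rw [h, map_one]
  · rw [hq]
    exact Finset.mem_insert_self _ _

theorem exists_le_subset (p : Cond I) (F : Finset I) : ∃ q ≤ p, F ⊆ q.F := by
  classical
  induction F using Finset.induction_on with
  | empty => exact ⟨p, le_rfl, Finset.empty_subset _⟩
  | insert α F _ ih =>
    obtain ⟨q, hq, hF⟩ := ih
    obtain ⟨r, hr, hα⟩ := exists_le_mem q α
    exact ⟨r, hr.trans hq, Finset.insert_subset hα (hF.trans hr.1)⟩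

theorem exists_le_word (p : Cond I) (w : FreeGroup I) : ∃ q ≤ p, w ∈ Wd q.F := by
  obtain ⟨F, hF⟩ := exists_Wd w
  obtain ⟨q, hq, h⟩ := exists_le_subset p F
  exact ⟨q, hq, Wd_mono h hF⟩

/-- The values at different elements of `F` are different. -/
theorem Cond.hom_ne (p : Cond I) {α β : I} (hα : α ∈ p.F) (hβ : β ∈ p.F) (h : α ≠ β) :
    p.hom ((FreeGroup.of α)⁻¹ * FreeGroup.of β) ≠ 1 := by
  intro he
  have h1 : p.φ α = p.φ β := by
    rw [map_mul, map_inv, Cond.hom, FreeGroup.lift_apply_of, FreeGroup.lift_apply_of,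
      inv_mul_eq_one] at he
    exact he
  rcases lt_or_gt_of_ne h with h2 | h2
  · exact p.indep β hβ (by
      rw [← h1]
      exact Subgroup.subset_closure ⟨α, ⟨hα, h2⟩, rfl⟩)
  · exact p.indep α hα (by
      rw [h1]
      exact Subgroup.subset_closure ⟨β, ⟨hβ, h2⟩, rfl⟩)

end Pool.Agent.MP_af815a_al
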