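import Mathlib

set_option autoImplicit false

/-!
# A Delta-system lemma for finite sets of countable ordinals
-/

namespace Pool.Agent.MP_af815a_al

universe u

theorem exists_fibre {T X : Type*} {S : Set T} (hS : ¬ S.Countable) (f : T → X) {D : Set X}
    (hD : D.Countable) (h : ∀ t ∈ S, f t ∈ D) : ∃ x ∈ D, ¬ {t ∈ S | f t = x}.Countable := by
  by_contra hc
  push Not at hc
  apply hS
  have : S ⊆ ⋃ x ∈ D, {t ∈ S | f t = x} := by
    intro t ht
    simp only [Set.mem_iUnion]
    exact ⟨f t, h t ht, ht, rfl⟩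
  exact (hD.biUnion hc).mono this

variable {I : Type u} [LinearOrder I]

theorem countable_finsets (hI : ∀ i : I, (Set.Iio i).Countable) (γ : I) :
    {F : Finset I | ∀ x ∈ F, x < γ}.Countable := by
  have h1 : {t : Set I | t.Finite ∧ t ⊆ Set.Iio γ}.Countable :=
    Set.countable_setOf_finite_subset (hI γ)
  have h2 : {F : Finset I | ∀ x ∈ F, x < γ} =
      (fun F : Finset I => (F : Set I)) ⁻¹' {t : Set I | t.Finite ∧ t ⊆ Set.Iio γ} := by
    ext F
    simp only [Set.mem_setOf_eq, Set.mem_preimage, Finset.finite_toSet, true_and]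
    constructor
    · intro h x hx
      exact h x (by exact_mod_cast hx)
    · intro h x hx
      exact h (by exact_mod_cast hx)
  rw [h2]
  exact h1.preimage (fun _ _ h => Finset.coe_injective h)

theorem exists_above (hI : ∀ i : I, (Set.Iio i).Countable) [Uncountable I] (F : Finset I) :
    ∃ γ : I, ∀ x ∈ F, x < γ := by
  by_contra hc
  push Not at hc
  have h1 : (Set.univ : Set I) ⊆ ⋃ x ∈ (F : Set I), Set.Iic x := by
    intro γ _
    obtain ⟨x, hx, hγ⟩ := hc γ
    simp only [Set.mem_iUnion]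
    exact ⟨x, by exact_mod_cast hx, hγ⟩
  have h2 : (⋃ x ∈ (F : Set I), Set.Iic x).Countable := by
    apply Set.Countable.biUnion F.countable_toSet
    intro x _
    rw [← Set.Iio_insert]
    exact (hI x).insert x
  have h3 : (Set.univ : Set I).Countable := h2.mono h1
  exact not_countable (Set.countable_univ_iff.1 h3)

theorem exists_delta {T C : Type*} [Uncountable T] [Countable C]
    (hI : ∀ i : I, (Set.Iio i).Countable) [Uncountable I] (s : T → Finset I) (c : T → C) :
    ∃ (F0 : Finset I) (t : Fin 3 → T), Function.Injective t ∧ (∀ i j, c (t i) = c (t j)) ∧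
      (∀ i, F0 ⊆ s (t i)) ∧ (∀ i, ∀ a ∈ F0, ∀ b ∈ s (t i), b ∉ F0 → a < b) ∧
      ∀ i j, i < j → ∀ a ∈ s (t i), a ∉ F0 → ∀ b ∈ s (t j), b ∉ F0 → a < b := by
  classical
  have hT : ¬ (Set.univ : Set T).Countable := by
    rw [Set.countable_univ_iff]
    exact not_countable
  obtain ⟨n, -, hn⟩ := exists_fibre hT (fun t => (s t).card) (Set.countable_univ (α := ℕ))
    (fun _ _ => trivial)
  set T1 : Set T := {t ∈ Set.univ | (s t).card = n} with hT1
  let tr : I → T → Finset I := fun γ t => (s t).filter (· < γ)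
  have htr : ∀ γ t, tr γ t ∈ {F : Finset I | ∀ x ∈ F, x < γ} := by
    intro γ t x hx
    exact (Finset.mem_filter.1 hx).2
  let Q : ℕ → Prop := fun k => ∃ γ F, F.card = k ∧ ¬ {t ∈ T1 | tr γ t = F}.Countable
  have hQle : ∀ k, Q k → k ≤ n := by
    rintro k ⟨γ, F, rfl, hF⟩
    have hne : {t ∈ T1 | tr γ t = F}.Nonempty := by
      rw [Set.nonempty_iff_ne_empty]
      intro h
      rw [h] at hF
      exact hF Set.countable_empty
    obtain ⟨t, ht, rfl⟩ := hne
    rw [← ht.2]
    exact Finset.card_filter_le _ _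
  obtain ⟨γ', -⟩ := exists_above hI (∅ : Finset I)
  have hQex : ∃ k, Q k := by
    obtain ⟨F, -, hF⟩ := exists_fibre hn (tr γ') (countable_finsets hI γ') (fun t _ => htr γ' t)
    exact ⟨F.card, γ', F, rfl, hF⟩
  obtain ⟨k0, hk0⟩ := hQex
  have hQg : Q (Nat.findGreatest Q n) := Nat.findGreatest_spec (hQle k0 hk0) hk0
  have hQmax : ∀ k, Q k → k ≤ Nat.findGreatest Q n := fun k hk =>
    Nat.le_findGreatest (hQle k hk) hk
  obtain ⟨γ0, F0, hF0c, hF0⟩ := hQg
  set T2 : Set T := {t ∈ T1 | tr γ0 t = F0} with hT2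
  have hroot : ∀ t ∈ T2, F0 ⊆ s t := by
    intro t ht
    rw [← ht.2]
    exact Finset.filter_subset _ _
  have hroot2 : ∀ t ∈ T2, ∀ a ∈ F0, ∀ b ∈ s t, b ∉ F0 → a < b := by
    intro t ht a ha b hb hbF
    rw [← ht.2] at ha hbF
    have h1 := (Finset.mem_filter.1 ha).2
    have h2 : ¬ b < γ0 := fun h => hbF (Finset.mem_filter.2 ⟨hb, h⟩)
    exact lt_of_lt_of_le h1 (not_lt.1 h2)
  have hbad : ∀ γ : I, {t ∈ T2 | ∃ x ∈ s t, x ∉ F0 ∧ x < γ}.Countable := by
    intro γ
    by_contra hc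
    obtain ⟨F, -, hF⟩ := exists_fibre hc (tr (max γ γ0)) (countable_finsets hI _)
      (fun t _ => htr _ t)
    have hne : {t ∈ {t ∈ T2 | ∃ x ∈ s t, x ∉ F0 ∧ x < γ} | tr (max γ γ0) t = F}.Nonempty := by
      rw [Set.nonempty_iff_ne_empty]
      intro h
      rw [h] at hF
      exact hF Set.countable_empty
    obtain ⟨t, ⟨ht, x, hx, hxF, hxγ⟩, htF⟩ := hne
    have h1 : F0 ⊂ F := by
      rw [Finset.ssubset_iff_of_subset]
      · refine ⟨x, ?_, hxF⟩
        rw [← htF]
        exact Finset.mem_filter.2 ⟨hx, lt_max_of_lt_left hxγ⟩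
      · intro a ha
        rw [← ht.2] at ha
        rw [← htF]
        have := Finset.mem_filter.1 ha
        exact Finset.mem_filter.2 ⟨this.1, lt_max_of_lt_right this.2⟩
    have h2 : Q F.card := by
      refine ⟨max γ γ0, F, rfl, fun h => hF (h.mono ?_)⟩
      rintro t' ⟨⟨ht', -⟩, ht'F⟩
      exact ⟨ht'.1, ht'F⟩
    have h3 := hQmax _ h2
    have h4 := Finset.card_lt_card h1
    omega
  obtain ⟨c0, -, hc0⟩ := exists_fibre hF0 c (Set.countable_univ (α := C)) (fun _ _ => trivial)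
  set T3 : Set T := {t ∈ T2 | c t = c0} with hT3
  have hpick : ∀ (G : Finset I) (E : Finset T), ∃ t ∈ T3, t ∉ E ∧
      ∀ a ∈ G, ∀ b ∈ s t, b ∉ F0 → a < b := by
    intro G E
    obtain ⟨γ, hγ⟩ := exists_above hI G
    by_contra hcon
    push Not at hcon
    apply hc0
    apply ((hbad γ).union E.countable_toSet).mono
    intro t ht
    by_cases htE : t ∈ E
    · right
      exact_mod_cast htE
    · left
      obtain ⟨a, ha, b, hb, hbF, hba⟩ := hcon t ht htE
      exact ⟨ht.1, b, hb, hbF, lt_of_le_of_lt hba (hγ a ha)⟩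
  obtain ⟨t1, ht1, -, -⟩ := hpick ∅ ∅
  obtain ⟨t2, ht2, ht21, h12⟩ := hpick (s t1) {t1}
  obtain ⟨t3, ht3, ht321, h123⟩ := hpick (s t1 ∪ s t2) {t1, t2}
  have hne12 : t1 ≠ t2 := fun h => ht21 (by simp [h])
  have hne13 : t1 ≠ t3 := fun h => ht321 (by simp [h])
  have hne23 : t2 ≠ t3 := fun h => ht321 (by simp [h])
  refine ⟨F0, ![t1, t2, t3], ?_, ?_, ?_, ?_, ?_⟩
  · intro i j h
    fin_cases i <;> fin_cases j <;> simp_all
  · intro i j
    fin_cases i <;> fin_cases j <;> simp [ht1.2, ht2.2, ht3.2]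
  · intro i
    fin_cases i
    · exact hroot t1 ht1.1
    · exact hroot t2 ht2.1
    · exact hroot t3 ht3.1
  · intro i
    fin_cases i
    · exact hroot2 t1 ht1.1
    · exact hroot2 t2 ht2.1
    · exact hroot2 t3 ht3.1
  · intro i j hij a ha haF b hb hbF
    fin_cases i <;> fin_cases j
    · exact absurd hij (by decide)
    · exact h12 a ha b hb hbF
    · exact h123 a (Finset.mem_union_left _ ha) b hb hbF
    · exact absurd hij (by decide)
    · exact absurd hij (by decide)
    · exact h123 a (Finset.mem_union_right _ ha) b hb hbF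
    · exact absurd hij (by decide)
    · exact absurd hij (by decide)
    · exact absurd hij (by decide)

end Pool.Agent.MP_af815a_al
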