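import Mathlib

set_option autoImplicit false

/-!
# The forcing relation for a poset of conditions

A statement about the extension by a poset `P` is given by its truth value, the predicate on `P`
which says which conditions force it.  The predicates `fNot`, `fImp`, `fAnd`, `fAll`, `fEx` are
the clauses of the forcing relation; `SetName` and `FunName` are the names of subsets of ground
model sets and of functions between ground model sets.
-/

namespace Pool.Agent.MP_af815a_al

open Cardinal

universe u

section Forcing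

variable {P : Type u} [Preorder P]

/-- `p ⊩ ¬ φ` -/
def fNot (φ : P → Prop) : P → Prop := fun p => ∀ q ≤ p, ¬ φ q

/-- `p ⊩ φ → ψ` -/
def fImp (φ ψ : P → Prop) : P → Prop := fun p => ∀ q ≤ p, φ q → ψ q

/-- `p ⊩ φ ∧ ψ` -/
def fAnd (φ ψ : P → Prop) : P → Prop := fun p => φ p ∧ ψ p

/-- `p ⊩ ∀ i, φ i` -/
def fAll {ι : Sort*} (φ : ι → P → Prop) : P → Prop := fun p => ∀ i, φ i p

/-- `p ⊩ ∃ i, φ i` -/
def fEx {ι : Sort*} (φ : ι → P → Prop) : P → Prop := fun p => ∀ q ≤ p, ∃ r ≤ q, ∃ i, φ i r

/-- A fact about ground model objects. -/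
def fFact (a : Prop) : P → Prop := fun _ => a

/-- A truth value: persistent, and true at `p` if true at densely many conditions below `p`. -/
def Reg (φ : P → Prop) : Prop :=
  (∀ p q, q ≤ p → φ p → φ q) ∧ ∀ p, (∀ q ≤ p, ∃ r ≤ q, φ r) → φ p

/-- A name for a subset of the ground model set `X`. -/
structure SetName (P : Type u) [Preorder P] (X : Type u) where
  mem : X → P → Prop
  reg : ∀ x, Reg (mem x)

/-- A name for a function `A → B` between ground model sets:
`app a b p` means `p ⊩ h(a) = b`. -/
structure FunName (P : Type u) [Preorder P] (A B : Type u) where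
  app : A → B → P → Prop
  reg : ∀ a b, Reg (app a b)
  sv : ∀ a b c p, app a b p → app a c p → b = c
  tot : ∀ a p, ∃ q ≤ p, ∃ b, app a b q

end Forcing

/-- Every antichain has less than `κ` elements. -/
def HasCC (κ : Cardinal.{u}) (P : Type u) [Preorder P] : Prop :=
  ∀ A : Set P, (∀ a ∈ A, ∀ b ∈ A, a ≠ b → ¬ ∃ r, r ≤ a ∧ r ≤ b) → #A < κ

section Group

variable {P : Type u} [Preorder P] {Ω : Type u}

/-! Let `F` be the free group on the ground model set `Ω` and `N` a name of a subset of `F`. -/

/-- `p ⊩ N is a normal subgroup of F` -/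
def fNormal (N : SetName P (FreeGroup Ω)) : P → Prop :=
  fAnd (N.mem 1)
    (fAnd (fAll fun x : FreeGroup Ω => fAll fun y : FreeGroup Ω =>
      fImp (N.mem x) (fImp (N.mem y) (N.mem (x * y))))
    (fAnd (fAll fun x : FreeGroup Ω => fImp (N.mem x) (N.mem x⁻¹))
    (fAll fun x : FreeGroup Ω => fAll fun g : FreeGroup Ω =>
      fImp (N.mem x) (N.mem (g * x * g⁻¹)))))

/-- `p ⊩ x N = y N`: the elements `x` and `y` of `F` define the same element of `F / N`. -/
def fEqv (N : SetName P (FreeGroup Ω)) (x y : FreeGroup Ω) : P → Prop := N.mem (x⁻¹ * y)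

/-- `p ⊩ F / N is locally finite`: every finite subset `E` of `F` generates modulo `N` a finite
group, with the elements `d N`, `d ∈ D`. -/
def fLocFinite (N : SetName P (FreeGroup Ω)) : P → Prop :=
  fAll fun E : Finset (FreeGroup Ω) => fEx fun D : Finset (FreeGroup Ω) =>
    fAll fun w : FreeGroup Ω => fImp (fFact (w ∈ Subgroup.closure (E : Set (FreeGroup Ω))))
      (fEx fun d : FreeGroup Ω => fAnd (fFact (d ∈ D)) (fEqv N w d))

/-- `p ⊩ the generators of F define pairwise different elements of F / N` -/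
def fDistinct (N : SetName P (FreeGroup Ω)) : P → Prop :=
  fAll fun α : Ω => fAll fun β : Ω => fImp (fFact (α ≠ β))
    (fNot (fEqv N (FreeGroup.of α) (FreeGroup.of β)))

/-- `p ⊩ {h N : h ∈ H} has at least |Ω| elements`: there is a function `e` from `Ω` to `H` whose
values are pairwise different modulo `N`. -/
def fLarge (N H : SetName P (FreeGroup Ω)) : P → Prop :=
  fEx fun e : FunName P Ω (FreeGroup Ω) =>
    fAnd (fAll fun ξ : Ω => fAll fun v : FreeGroup Ω => fImp (e.app ξ v) (H.mem v))
    (fAll fun ξ : Ω => fAll fun η : Ω => fImp (fFact (ξ ≠ η))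
      (fAll fun v : FreeGroup Ω => fAll fun w : FreeGroup Ω =>
        fImp (e.app ξ v) (fImp (e.app η w) (fNot (fEqv N v w)))))

/-- `p ⊩ there are x, y, z ∈ H with x⁻¹ y = y⁻¹ z and x ≠ z in F / N` -/
def fSolution (N H : SetName P (FreeGroup Ω)) : P → Prop :=
  fEx fun x : FreeGroup Ω => fEx fun y : FreeGroup Ω => fEx fun z : FreeGroup Ω =>
    fAnd (H.mem x) (fAnd (H.mem y) (fAnd (H.mem z)
      (fAnd (fEqv N (x⁻¹ * y) (y⁻¹ * z)) (fNot (fEqv N x z)))))

end Group

end Pool.Agent.MP_af815a_al
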