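import Pool.Agent.Lib.MP_af815a_al.Forcing
import Pool.Agent.Lib.MP_af815a_al.Delta
import Pool.Agent.Lib.MP_af815a_al.Amalgam

set_option autoImplicit false

/-!
# The generic group
-/

namespace Pool.Agent.MP_af815a_al

open Cardinal

universe u

variable {I : Type u} [LinearOrder I]

/-- The isomorphism types of a finite group with `n` generators and one more element. -/
abbrev Code : Type := Σ n : ℕ, Σ m : ℕ, (Fin n → Equiv.Perm (Fin m)) × Equiv.Perm (Fin m)

/-- The isomorphism type of a condition and a word. -/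
noncomputable def code (p : Cond I) (v : FreeGroup I) : Code :=
  ⟨p.F.card, p.m, fun j => p.φ (p.F.orderEmbOfFin rfl j), p.hom v⟩

theorem decode {p : Cond I} {v : FreeGroup I} {n m : ℕ} {a : Fin n → Equiv.Perm (Fin m)}
    {g : Equiv.Perm (Fin m)} (h : code p v = ⟨n, m, a, g⟩) :
    (∀ j, a j ∉ Subgroup.closure (a '' Set.Iio j)) ∧
    ∃ (e : Fin n → I) (f : FreeGroup I →* Equiv.Perm (Fin m)), StrictMono e ∧
      (∀ x, x ∈ p.F ↔ ∃ j, e j = x) ∧ (∀ j, f (FreeGroup.of (e j)) = a j) ∧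
      (∀ w, f w = 1 ↔ p.hom w = 1) ∧ f v = g := by
  cases h
  refine ⟨?_, p.F.orderEmbOfFin rfl, p.hom, (p.F.orderEmbOfFin rfl).strictMono, ?_, ?_,
    fun _ => Iff.rfl, rfl⟩
  · intro j hj
    apply p.indep (p.F.orderEmbOfFin rfl j) (Finset.orderEmbOfFin_mem _ _ _)
    refine Subgroup.closure_mono ?_ hj
    rintro _ ⟨k, hk, rfl⟩
    exact ⟨_, ⟨Finset.orderEmbOfFin_mem _ _ _, (p.F.orderEmbOfFin rfl).strictMono hk⟩, rfl⟩
  · intro x
    have := Finset.range_orderEmbOfFin p.F rfl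
    rw [← Finset.mem_coe, ← this]
    rfl
  · intro j
    rw [Cond.hom, FreeGroup.lift_apply_of]

/-- Among uncountably many conditions with words there are three with a common extension which
forces the relation between the words. -/
theorem exists_three (hI : ∀ i : I, (Set.Iio i).Countable) [Uncountable I] {T : Type*}
    [Uncountable T] (p : T → Cond I) (v : T → FreeGroup I) (hv : ∀ t, v t ∈ Wd (p t).F) :
    ∃ t : Fin 3 → T, Function.Injective t ∧ ∃ q : Cond I, (∀ i, q ≤ p (t i)) ∧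
      q.hom (v (t 2) * (v (t 0))⁻¹ * v (t 2) * (v (t 1))⁻¹) = 1 := by
  classical
  obtain ⟨F0, t, htinj, hcode, hsub, hroot, hblock⟩ :=
    exists_delta hI (fun t => (p t).F) (fun t => code (p t) (v t))
  obtain ⟨⟨n, m, a, g⟩, hc⟩ : ∃ c, code (p (t 0)) (v (t 0)) = c := ⟨_, rfl⟩
  have hd : ∀ i, code (p (t i)) (v (t i)) = ⟨n, m, a, g⟩ := fun i => (hcode i 0).trans hc
  have ha := (decode (hd 0)).1
  choose e f he hef hfa hfp hfv using fun i => (decode (hd i)).2
  -- the rank of an element of the root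
  have hrank : ∀ i j, e i j ∈ F0 → (F0.filter (· < e i j)).card = j.val := by
    intro i j hj
    have h1 : F0.filter (· < e i j) = (Finset.Iio j).image (e i) := by
      ext x
      rw [Finset.mem_filter, Finset.mem_image]
      constructor
      · rintro ⟨hx, hxj⟩
        obtain ⟨k, rfl⟩ := (hef i x).1 (hsub i hx)
        exact ⟨k, Finset.mem_Iio.2 ((he i).lt_iff_lt.1 hxj), rfl⟩
      · rintro ⟨k, hk, rfl⟩
        have hk' := he i (Finset.mem_Iio.1 hk)
        refine ⟨?_, hk'⟩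
        by_contra hkF
        exact absurd (hroot i _ hj _ ((hef i _).2 ⟨k, rfl⟩) hkF) hk'.not_gt
    rw [h1, Finset.card_image_of_injective _ (he i).injective, Fin.card_Iio]
  have hrt : ∀ i i' j, e i j ∈ F0 → e i' j = e i j := by
    intro i i' j hj
    obtain ⟨k, hk⟩ := (hef i' _).1 (hsub i' hj)
    have h1 := hrank i j hj
    have h2 := hrank i' k (by rw [hk]; exact hj)
    rw [hk, h1] at h2
    have h3 : j = k := Fin.ext h2
    rw [h3] at hk ⊢
    exact hk
  obtain ⟨q, hq, hqv⟩ := amalgam a ha (fun j => e 0 j ∈ F0)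
    (by
      intro j k hk hjk
      by_contra hj
      exact absurd (hroot 0 _ hk _ ((hef 0 _).2 ⟨j, rfl⟩) hj) ((he 0).monotone hjk).not_gt)
    e he
    (by
      intro i i' j hj
      rw [hrt 0 i j hj, hrt 0 i' j hj])
    (by
      intro i i' hii j k hj hk
      have hj' : e i j ∉ F0 := fun h => hj (by rw [hrt i 0 j h]; exact h)
      have hk' : e i' k ∉ F0 := fun h => hk (by rw [hrt i' 0 k h]; exact h)
      exact hblock i i' hii _ ((hef i _).2 ⟨j, rfl⟩) hj' _ ((hef i' _).2 ⟨k, rfl⟩) hk')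
    (fun i => p (t i)) hef f hfa hfp
  exact ⟨t, htinj, q, hq, hqv g (fun i => v (t i)) (fun i => hv (t i)) hfv⟩

/-! ### The name of the normal subgroup -/

/-- The name of the normal subgroup `N` of the free group: `N` contains the words which are
trivial in the finite groups of the generic filter. -/
def Nname (I : Type u) [LinearOrder I] : SetName (Cond I) (FreeGroup I) where
  mem w p := ∀ q ≤ p, w ∈ Wd q.F → q.hom w = 1
  reg w := by
    refine ⟨fun p q hqp h r hr => h r (hr.trans hqp), ?_⟩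
    intro p h q hq hw
    obtain ⟨r, hr, hrw⟩ := h q hq
    rw [← hr.2 w hw]
    exact hrw r le_rfl (Wd_mono hr.1 hw)

theorem Nname_mem {p : Cond I} {w : FreeGroup I} (hw : w ∈ Wd p.F) :
    (Nname I).mem w p ↔ p.hom w = 1 :=
  ⟨fun h => h p le_rfl hw, fun h q hq _ => (hq.2 w hw).2 h⟩

theorem Nname_mem' {p : Cond I} {w : FreeGroup I} :
    (Nname I).mem w p ↔ ∀ q ≤ p, w ∈ Wd q.F → q.hom w = 1 := Iff.rfl

theorem fNormal_Nname (p : Cond I) : fNormal (Nname I) p := by
  refine ⟨fun q _ _ => map_one _, ?_, ?_, ?_⟩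
  · intro x y q _ hx r hr hy s hs hw
    obtain ⟨u, hu, hux⟩ := exists_le_word s x
    obtain ⟨u', hu', huy⟩ := exists_le_word u y
    rw [← (hu'.trans hu).2 _ hw, map_mul, hx u' (hu'.trans (hu.trans (hs.trans hr)))
      (Wd_mono hu'.1 hux), hy u' (hu'.trans (hu.trans hs)) huy, one_mul]
  · intro x q _ hx r hr hw
    rw [map_inv, inv_eq_one]
    exact hx r hr (by simpa using inv_mem hw)
  · intro x g _ _ hx r hr hw
    obtain ⟨u, hu, hux⟩ := exists_le_word r x
    rw [← hu.2 _ hw, map_mul, map_mul, hx u (hu.trans hr) hux, mul_one, map_inv, mul_inv_cancel]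

theorem fDistinct_Nname (p : Cond I) : fDistinct (Nname I) p := by
  intro α β q _ hαβ r _ hN
  obtain ⟨s, hs, hα⟩ := exists_le_mem r α
  obtain ⟨s', hs', hβ⟩ := exists_le_mem s β
  have hα' := hs'.1 hα
  exact s'.hom_ne hα' hβ hαβ
    (hN s' (hs'.trans hs) (mul_mem (inv_mem (of_mem_Wd hα')) (of_mem_Wd hβ)))

theorem fLocFinite_Nname (p : Cond I) : fLocFinite (Nname I) p := by
  classical
  intro E q hq
  -- a condition which decides all elements of `E`
  have h1 : ∀ E : Finset (FreeGroup I), ∃ r ≤ q, (E : Set (FreeGroup I)) ⊆ Wd r.F := by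
    intro E
    induction E using Finset.induction_on with
    | empty => exact ⟨q, le_rfl, by simp⟩
    | insert w E _ ih =>
      obtain ⟨r, hr, hE⟩ := ih
      obtain ⟨s, hs, hw⟩ := exists_le_word r w
      refine ⟨s, hs.trans hr, ?_⟩
      rw [Finset.coe_insert]
      exact Set.insert_subset hw (hE.trans (Wd_mono hs.1))
  obtain ⟨r, hr, hE⟩ := h1 E
  have hEc : Subgroup.closure (E : Set (FreeGroup I)) ≤ Wd r.F := (Subgroup.closure_le _).2 hE
  -- representatives
  let S : Set (Equiv.Perm (Fin r.m)) := r.hom '' (Subgroup.closure (E : Set (FreeGroup I)))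
  have hS : ∀ x : Equiv.Perm (Fin r.m), ∃ w : FreeGroup I,
      x ∈ S → w ∈ Subgroup.closure (E : Set (FreeGroup I)) ∧ r.hom w = x := by
    intro x
    by_cases hx : x ∈ S
    · obtain ⟨w, hw, hwx⟩ := hx
      exact ⟨w, fun _ => ⟨hw, hwx⟩⟩
    · exact ⟨1, fun h => absurd h hx⟩
  choose d hd using hS
  refine ⟨r, hr, Finset.univ.image d, ?_⟩
  intro w s hs hw t ht
  refine ⟨t, le_rfl, d (r.hom w), Finset.mem_image_of_mem _ (Finset.mem_univ _), ?_⟩
  obtain ⟨hd1, hd2⟩ := hd (r.hom w) ⟨w, hw, rfl⟩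
  have h2 : w⁻¹ * d (r.hom w) ∈ Wd r.F := mul_mem (inv_mem (hEc hw)) (hEc hd1)
  have h3 : (Nname I).mem (w⁻¹ * d (r.hom w)) r := by
    rw [Nname_mem h2, map_mul, map_inv, hd2, inv_mul_cancel]
  exact ((Nname I).reg _).1 _ _ (ht.trans hs) h3

theorem hasCC_Cond (hI : ∀ i : I, (Set.Iio i).Countable) [Uncountable I] :
    HasCC ℵ₁ (Cond I) := by
  intro S hS
  by_contra hcon
  have hunc : Uncountable S := by
    rw [← Cardinal.aleph0_lt_mk_iff]
    exact lt_of_lt_of_le (Cardinal.aleph0_lt_aleph_one) (not_lt.1 hcon)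
  obtain ⟨t, ht, q, hq, -⟩ := exists_three hI (fun s : S => (s : Cond I)) (fun _ => 1)
    (fun _ => one_mem _)
  refine hS _ (t 0).2 _ (t 1).2 ?_ ⟨q, hq 0, hq 1⟩
  intro h
  exact absurd (ht (Subtype.ext h)) (by decide)

theorem mk_Cond_le (hI : #I = ℵ₁) : #(Cond I) ≤ ℵ₁ := by
  classical
  have hinf : Infinite I := by
    rw [Cardinal.infinite_iff, hI]
    exact Cardinal.aleph0_lt_aleph_one.le
  let f : Cond I → Finset I × Code := fun p =>
    (p.F, ⟨p.F.card, p.m, fun j => p.φ (p.F.orderEmbOfFin rfl j), 1⟩)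
  have hf : Function.Injective f := by
    rintro ⟨F, m, φ, hs, hi⟩ ⟨F', m', φ', hs', hi'⟩ h
    simp only [f, Prod.mk.injEq] at h
    obtain ⟨h1, h2⟩ := h
    subst h1
    have h3 := eq_of_heq (Sigma.mk.inj h2).2
    have h4 : m = m' := (Sigma.mk.inj h3).1
    subst h4
    have h5 := eq_of_heq (Sigma.mk.inj h3).2
    have h6 := (Prod.mk.inj h5).1
    have h7 : φ = φ' := by
      funext α
      by_cases hα : α ∈ F
      · obtain ⟨j, hj⟩ : ∃ j, F.orderEmbOfFin rfl j = α := by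
          have := Finset.range_orderEmbOfFin F rfl
          rw [← Finset.mem_coe, ← this] at hα
          exact hα
        have := congrFun h6 j
        simp only [hj] at this
        exact this
      · rw [hs α hα, hs' α hα]
    subst h7
    rfl
  calc #(Cond I) ≤ #(Finset I × Code) := Cardinal.mk_le_of_injective hf
    _ = Cardinal.lift #(Finset I) * Cardinal.lift #Code := Cardinal.mk_prod _ _
    _ ≤ ℵ₁ * ℵ₁ := by
      gcongr
      · rw [Cardinal.mk_finset_of_infinite, hI]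
        simp
      · have : #Code ≤ ℵ₀ := Cardinal.mk_le_aleph0
        calc Cardinal.lift #Code ≤ Cardinal.lift ℵ₀ := Cardinal.lift_le.2 this
          _ ≤ ℵ₁ := by
            rw [Cardinal.lift_aleph0]
            exact Cardinal.aleph0_lt_aleph_one.le
    _ = ℵ₁ := Cardinal.mul_eq_self Cardinal.aleph0_lt_aleph_one.le

theorem fSolution_of_fLarge (hI : ∀ i : I, (Set.Iio i).Countable) [Uncountable I]
    (H : SetName (Cond I) (FreeGroup I)) (p : Cond I) (hH : fLarge (Nname I) H p) :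
    fSolution (Nname I) H p := by
  intro p' hp'
  obtain ⟨r, hr, e, heH, hed⟩ := hH p' hp'
  -- decide the values of `e`
  have h1 : ∀ ξ : I, ∃ q ≤ r, ∃ v, e.app ξ v q ∧ v ∈ Wd q.F := by
    intro ξ
    obtain ⟨q, hq, v, hv⟩ := e.tot ξ r
    obtain ⟨q', hq', hv'⟩ := exists_le_word q v
    exact ⟨q', hq'.trans hq, v, (e.reg _ _).1 _ _ hq' hv, hv'⟩
  choose q hq v hv hvW using h1
  obtain ⟨t, ht, s, hs, hrel⟩ := exists_three hI q v hvW
  have hsr : s ≤ r := (hs 0).trans (hq _)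
  have hmem : ∀ i, H.mem (v (t i)) s := fun i =>
    heH (t i) (v (t i)) s hsr ((e.reg _ _).1 _ _ (hs i) (hv (t i)))
  refine ⟨s, hsr.trans hr, v (t 0), ?_⟩
  intro s1 hs1
  refine ⟨s1, le_rfl, v (t 2), ?_⟩
  intro s2 hs2
  refine ⟨s2, le_rfl, v (t 1), ?_⟩
  have hs2s : s2 ≤ s := hs2.trans hs1
  refine ⟨(H.reg _).1 _ _ hs2s (hmem 0), (H.reg _).1 _ _ hs2s (hmem 2),
    (H.reg _).1 _ _ hs2s (hmem 1), ?_, ?_⟩
  · have hW : ∀ i, v (t i) ∈ Wd s.F := fun i => Wd_mono (hs i).1 (hvW (t i))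
    have h2 : (Nname I).mem (((v (t 0))⁻¹ * v (t 2))⁻¹ * ((v (t 2))⁻¹ * v (t 1))) s := by
      rw [Nname_mem (mul_mem (inv_mem (mul_mem (inv_mem (hW 0)) (hW 2)))
        (mul_mem (inv_mem (hW 2)) (hW 1)))]
      simp only [map_mul, map_inv] at hrel ⊢
      rw [mul_inv_eq_one] at hrel
      rw [← hrel]
      group
    exact ((Nname I).reg _).1 _ _ hs2s h2
  · have hne : t 0 ≠ t 1 := fun h => absurd (ht h) (by decide)
    exact fun s3 hs3 => hed (t 0) (t 1) r le_rfl hne (v (t 0)) (v (t 1)) s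
      hsr ((e.reg _ _).1 _ _ (hs 0) (hv (t 0))) s le_rfl
      ((e.reg _ _).1 _ _ (hs 1) (hv (t 1))) s3 (hs3.trans hs2s)

end Pool.Agent.MP_af815a_al
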