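import Pool.Agent.Lib.MP_af815a_al.Proper

set_option autoImplicit false

/-!
# Countable models

Let `A` be an uncountable subset of a group `G`.  A model is a countable subset `a` of `G` and a
countable family of sets of finite sequences in `G` which is closed under some operations.  It is
coded by a set of finite sequences, so that models can belong to models.
-/

namespace Pool.Agent.MP_af815a_al

open Set

universe u

variable {G : Type u} [Group G]

/-- The elements `y` such that `y x⁻¹ y = z` for two different elements `x`, `z` of `F`. -/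
def Between (F : Set G) : Set G := {y | ∃ x ∈ F, ∃ z ∈ F, x ≠ z ∧ y * x⁻¹ * y = z}

/-- `x` and `y x⁻¹ y` are exchanged by the involution given by `y`. -/
theorem refl_refl (x y : G) : y * (y * x⁻¹ * y)⁻¹ * y = x := by group

theorem refl_inj {x z y : G} (h : y * x⁻¹ * y = y * z⁻¹ * y) : x = z := by
  simpa using h

/-- The finite sequences which are bad for the set `A`. -/
def Bad (A : Set G) : Set (List G) := {l | {y ∈ A | y ∉ Between {x | x ∈ l}}.Countable}

section Lists

variable {X : Type u}

/-- The section of a set of finite sequences. -/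
def sec (T : Set (List X)) (x : X) : Set (List X) := {l | x :: l ∈ T}

/-- The set of all sequences with uncountably many successors in `T`. -/
def der (T : Set (List X)) : Set (List X) := {l | ¬ {z | l ++ [z] ∈ T}.Countable}

/-- The first elements of the sequences of length one in `T`. -/
def bas (T : Set (List X)) : Set X := {z | [z] ∈ T}

theorem sec_der (T : Set (List X)) (x : X) : sec (der T) x = der (sec T x) := rfl

theorem sec_der_iterate (n : ℕ) (T : Set (List X)) (x : X) :
    sec (der^[n] T) x = der^[n] (sec T x) := by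
  induction n generalizing T with
  | zero => rfl
  | succ n ih =>
    rw [Function.iterate_succ_apply, Function.iterate_succ_apply, ih]
    rfl

variable (c : ℕ → List X → List X)

/-- The sets of sequences coded by a set of sequences. -/
def row (N : Set (List X)) (n : ℕ) : Set (List X) := {l | c n l ∈ N}

/-- The elements of the model coded by `N`. -/
def ats (N : Set (List X)) : Set X := {x | [x] ∈ row c N 0}

/-- The family of sets of sequences of the model coded by `N`. -/
def tr (N : Set (List X)) : Set (Set (List X)) := Set.range fun n => row c N (n + 1)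

theorem exists_code (hc : ∀ n m l l', c n l = c m l' → n = m ∧ l = l') (a : Set X)
    {t : Set (Set (List X))} (ht : t.Countable) (hn : t.Nonempty) :
    ∃ N, ats c N = a ∧ tr c N = t := by
  obtain ⟨f, rfl⟩ := ht.exists_eq_range hn
  refine ⟨{l | (∃ x ∈ a, l = c 0 [x]) ∨ ∃ n, ∃ l' ∈ f n, l = c (n + 1) l'}, ?_, ?_⟩
  · ext x
    constructor
    · rintro (⟨y, hy, h⟩ | ⟨n, l', hl', h⟩)
      · have := (hc _ _ _ _ h).2
        rw [List.singleton_inj] at this
        rw [this]
        exact hy
      · exact absurd (hc _ _ _ _ h).1 (by simp)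
    · intro hx
      exact Or.inl ⟨x, hx, rfl⟩
  · have h1 : ∀ n, row c {l | (∃ x ∈ a, l = c 0 [x]) ∨ ∃ n, ∃ l' ∈ f n, l = c (n + 1) l'} (n + 1)
        = f n := by
      intro n
      ext l
      constructor
      · rintro (⟨y, hy, h⟩ | ⟨m, l', hl', h⟩)
        · exact absurd (hc _ _ _ _ h).1 (by simp)
        · obtain ⟨h2, rfl⟩ := hc _ _ _ _ h
          rw [Nat.add_right_cancel h2]
          exact hl'
      · intro hl
        exact Or.inr ⟨n, l, hl, rfl⟩
    unfold tr
    simp only [h1]

end Lists

variable (c : ℕ → List G → List G) (A : Set G)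

/-- The countable models. -/
structure IsModel (N : Set (List G)) : Prop where
  ctb : (ats c N).Countable
  theta : ∀ x ∈ ats c N, ∀ y ∈ ats c N, y * x⁻¹ * y ∈ ats c N
  sec_mem : ∀ T ∈ tr c N, ∀ x ∈ ats c N, sec T x ∈ tr c N
  der_mem : ∀ T ∈ tr c N, der T ∈ tr c N
  row_mem : ∀ T ∈ tr c N, ∀ n, row c T n ∈ tr c N
  bad : Bad A ∈ tr c N
  small : ∀ T ∈ tr c N, (bas T).Countable → bas T ⊆ ats c N
  large : ∀ T ∈ tr c N, ¬ (bas T).Countable → (bas T ∩ ats c N).Infinite

variable {c A}

theorem IsModel.tr_sub {M N : Set (List G)} (hM : IsModel c A M) (h : N ∈ tr c M) :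
    tr c N ⊆ tr c M := by
  rintro _ ⟨n, rfl⟩
  exact hM.row_mem N h (n + 1)

theorem IsModel.ats_sub {M N : Set (List G)} (hM : IsModel c A M) (hN : IsModel c A N)
    (h : N ∈ tr c M) : ats c N ⊆ ats c M :=
  hM.small _ (hM.row_mem N h 0) hN.ctb

theorem IsModel.secs {N : Set (List G)} (hN : IsModel c A N) {T : Set (List G)}
    (hT : T ∈ tr c N) (u : List G) (hu : ∀ x ∈ u, x ∈ ats c N) : {t | u ++ t ∈ T} ∈ tr c N := by
  induction u generalizing T with
  | nil => exact hT
  | cons x u ih =>
    exact ih (hN.sec_mem T hT x (hu x (by simp))) (fun y hy => hu y (by simp [hy]))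

theorem IsModel.der_iterate {N : Set (List G)} (hN : IsModel c A N) (n : ℕ)
    {T : Set (List G)} (hT : T ∈ tr c N) : der^[n] T ∈ tr c N := by
  induction n with
  | zero => exact hT
  | succ n ih =>
    rw [Function.iterate_succ_apply']
    exact hN.der_mem _ ih

/-- Selection of a sequence of elements of a model in `T` which avoids finite sets. -/
theorem IsModel.exists_list {N : Set (List G)} (hN : IsModel c A N) (e : G → Set G)
    (he : ∀ x, (e x).Finite) (n : ℕ) {T : Set (List G)} (hT : T ∈ tr c N)
    (hn : [] ∈ der^[n] T) {E : Set G} (hE : E.Finite) :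
    ∃ l ∈ T, (∀ z ∈ l, z ∈ ats c N ∧ z ∉ E) ∧ l.Pairwise (fun x z => z ∉ e x) := by
  induction n generalizing T E with
  | zero => exact ⟨[], hn, by simp, List.Pairwise.nil⟩
  | succ n ih =>
    rw [Function.iterate_succ_apply'] at hn
    have h1 := hN.large _ (hN.der_iterate n hT) hn
    obtain ⟨z, hz, hzE⟩ := h1.exists_notMem_finite hE
    have h2 : [] ∈ der^[n] (sec T z) := by
      rw [← sec_der_iterate]
      exact hz.1
    obtain ⟨l, hl, hl1, hl2⟩ := ih (hN.sec_mem T hT z hz.2) h2 (hE.union (he z))
    refine ⟨z :: l, hl, ?_, List.pairwise_cons.2 ⟨fun w hw h => (hl1 w hw).2 (Or.inr h), hl2⟩⟩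
    intro w hw
    rcases List.mem_cons.1 hw with rfl | hw
    · exact ⟨hz.2, hzE⟩
    · exact ⟨(hl1 w hw).1, fun h => (hl1 w hw).2 (Or.inl h)⟩

/-! ### Chains of models -/

/-- `S` is a finite chain of models. -/
structure IsChainOfModels (c : ℕ → List G → List G) (A : Set G) (S : Set (Set (List G))) :
    Prop where
  fin : S.Finite
  mod : ∀ N ∈ S, IsModel c A N
  chain : ∀ N ∈ S, ∀ K ∈ S, N ≠ K → N ∈ tr c K ∨ K ∈ tr c N

/-- Two different elements of `F` are separated by a model in `S`. -/
def Separated (c : ℕ → List G → List G) (S : Set (Set (List G))) (F : Set G) : Prop :=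
  ∀ x ∈ F, ∀ y ∈ F, x ≠ y →
    ∃ N ∈ S, (x ∈ ats c N ∧ y ∉ ats c N) ∨ (y ∈ ats c N ∧ x ∉ ats c N)

theorem IsChainOfModels.sub {S S' : Set (Set (List G))} (hS : IsChainOfModels c A S)
    (h : S' ⊆ S) : IsChainOfModels c A S' :=
  ⟨hS.fin.subset h, fun N hN => hS.mod N (h hN), fun N hN K hK => hS.chain N (h hN) K (h hK)⟩

omit [Group G] in
theorem Separated.sub {S : Set (Set (List G))} {F F' : Set G} (h : Separated c S F)
    (hF : F' ⊆ F) : Separated c S F' :=
  fun x hx y hy hxy => h x (hF hx) y (hF hy) hxy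

/-- A nonempty chain has a last element. -/
theorem IsChainOfModels.exists_last {S : Set (Set (List G))} (hS : IsChainOfModels c A S)
    (hne : S.Nonempty) : ∃ K ∈ S, ∀ N ∈ S, N = K ∨ N ∈ tr c K := by
  have hfin := hS.fin
  induction S, hfin using Set.Finite.induction_on with
  | empty => exact absurd hne Set.not_nonempty_empty
  | @insert N S hNS _ ih =>
    have hS' : IsChainOfModels c A S := hS.sub (Set.subset_insert _ _)
    rcases S.eq_empty_or_nonempty with rfl | hne'
    · exact ⟨N, by simp, by simp⟩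
    · obtain ⟨K, hK, hKl⟩ := ih hS' hne'
      have hne2 : N ≠ K := fun h => hNS (h ▸ hK)
      rcases hS.chain N (by simp) K (by simp [hK]) hne2 with h | h
      · refine ⟨K, by simp [hK], ?_⟩
        intro L hL
        rcases Set.mem_insert_iff.1 hL with rfl | hL
        · exact Or.inr h
        · exact hKl L hL
      · refine ⟨N, by simp, ?_⟩
        intro L hL
        rcases Set.mem_insert_iff.1 hL with rfl | hL
        · exact Or.inl rfl
        · refine Or.inr ?_
          rcases hKl L hL with rfl | h2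
          · exact h
          · exact (hS.mod N (by simp)).tr_sub h h2

/-- A nonempty separated set has a top element. -/
theorem IsChainOfModels.exists_top {S : Set (Set (List G))} (hS : IsChainOfModels c A S)
    {F : Set G} (hF : F.Finite) (hne : F.Nonempty) (hsep : Separated c S F) :
    ∃ y ∈ F, ∀ x ∈ F, x ≠ y → ∃ K ∈ S, x ∈ ats c K ∧ y ∉ ats c K := by
  obtain ⟨y, hy, hmax⟩ := Set.exists_max_image F (fun y => {K ∈ S | y ∉ ats c K}.ncard) hF hne
  refine ⟨y, hy, fun x hx hxy => ?_⟩
  obtain ⟨K, hK, h | h⟩ := hsep x hx y hy hxy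
  · exact ⟨K, hK, h⟩
  · exfalso
    have h1 : {K ∈ S | y ∉ ats c K} ⊂ {K ∈ S | x ∉ ats c K} := by
      refine (Set.ssubset_iff_of_subset ?_).2 ⟨K, ⟨hK, h.2⟩, fun h' => h'.2 h.1⟩
      rintro K' ⟨hK', hy'⟩
      refine ⟨hK', fun hx' => ?_⟩
      have hne' : K' ≠ K := by
        rintro rfl
        exact h.2 hx'
      rcases hS.chain K' hK' K hK hne' with h2 | h2
      · exact h.2 ((hS.mod K hK).ats_sub (hS.mod K' hK') h2 hx')
      · exact hy' ((hS.mod K' hK').ats_sub (hS.mod K hK) h2 h.1)
    have h2 := Set.ncard_lt_ncard h1 (hS.fin.subset (Set.sep_subset _ _))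
    exact absurd (hmax x hx) (not_le.2 h2)

/-- The last model which omits a top element. -/
theorem IsChainOfModels.exists_cut {S : Set (Set (List G))} (hS : IsChainOfModels c A S)
    {F : Set G} {y : G} (htop : ∀ x ∈ F, x ≠ y → ∃ K ∈ S, x ∈ ats c K ∧ y ∉ ats c K)
    {N : Set (List G)} (hN : N ∈ S) (hyN : y ∉ ats c N) :
    ∃ K ∈ S, (N = K ∨ N ∈ tr c K) ∧ y ∉ ats c K ∧ ∀ x ∈ F, x ≠ y → x ∈ ats c K := by
  obtain ⟨K, hK, hlast⟩ := (hS.sub (Set.sep_subset S fun K => y ∉ ats c K)).exists_last
    ⟨N, hN, hyN⟩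
  refine ⟨K, hK.1, hlast N ⟨hN, hyN⟩, hK.2, fun x hx hxy => ?_⟩
  obtain ⟨K', hK', hx', hy'⟩ := htop x hx hxy
  rcases hlast K' ⟨hK', hy'⟩ with rfl | h
  · exact hx'
  · exact (hS.mod K hK.1).ats_sub (hS.mod K' hK') h hx'

/-- If a set in the model `N` contains all enumerations of a separated set `Y` outside of `N`,
then its derivative of order `|Y|` contains the empty sequence. -/
theorem IsChainOfModels.nil_mem_der {S : Set (Set (List G))} (hS : IsChainOfModels c A S)
    {N : Set (List G)} (hN : N ∈ S) (n : ℕ) {Y : Set G} (hY : Y.Finite) (hn : Y.ncard = n)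
    (hsep : Separated c S Y) (hYN : ∀ y ∈ Y, y ∉ ats c N) {T : Set (List G)} (hT : T ∈ tr c N)
    (h : ∀ l : List G, l.Nodup → (∀ x, x ∈ l ↔ x ∈ Y) → l ∈ T) : [] ∈ der^[n] T := by
  induction n generalizing Y T with
  | zero =>
    rw [Set.ncard_eq_zero hY] at hn
    subst hn
    exact h [] List.nodup_nil (by simp)
  | succ n ih =>
    have hne : Y.Nonempty := by
      rw [← Set.ncard_pos hY]
      omega
    obtain ⟨y, hy, htop⟩ := hS.exists_top hY hne hsep
    obtain ⟨K, hK, hNK, hyK, hYK⟩ := hS.exists_cut htop hN (hYN y hy)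
    have hcard : (Y \ {y}).ncard = n := by
      rw [Set.ncard_sdiff_singleton_of_mem hy, hn]
      rfl
    rw [Function.iterate_succ_apply]
    refine ih (hY.subset Set.sdiff_subset) hcard (hsep.sub Set.sdiff_subset)
      (fun x hx => hYN x hx.1) ((hS.mod N hN).der_mem T hT) ?_
    intro l hl hlY
    have hTK : T ∈ tr c K := by
      rcases hNK with rfl | h'
      · exact hT
      · exact (hS.mod K hK).tr_sub h' hT
    have hlK : ∀ x ∈ l, x ∈ ats c K := fun x hx =>
      hYK x ((hlY x).1 hx).1 (fun h' => ((hlY x).1 hx).2 h')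
    intro hctb
    refine hyK ((hS.mod K hK).small _ ((hS.mod K hK).secs hTK l hlK) hctb ?_)
    refine h (l ++ [y]) ?_ ?_
    · rw [List.nodup_append]
      refine ⟨hl, List.nodup_singleton y, ?_⟩
      intro a ha b hb hab
      rw [List.mem_singleton] at hb
      subst hb
      subst hab
      exact ((hlY a).1 ha).2 rfl
    · intro x
      rw [List.mem_append, List.mem_singleton, hlY]
      constructor
      · rintro (hx | rfl)
        · exact hx.1
        · exact hy
      · intro hx
        by_cases hxy : x = y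
        · exact Or.inr hxy
        · exact Or.inl ⟨hx, hxy⟩

/-- The elements of `A` which are not between two elements of a separated set. -/
theorem IsChainOfModels.not_bad {S : Set (Set (List G))} (hS : IsChainOfModels c A S)
    (hA : ¬ A.Countable) (n : ℕ) {F : Set G} (hF : F.Finite) (hn : F.ncard = n)
    (hsep : Separated c S F) : ¬ {y ∈ A | y ∉ Between F}.Countable := by
  induction n generalizing F with
  | zero =>
    rw [Set.ncard_eq_zero hF] at hn
    subst hn
    have : {y ∈ A | y ∉ Between (∅ : Set G)} = A := by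
      ext y
      simp [Between]
    rw [this]
    exact hA
  | succ n ih =>
    have hne : F.Nonempty := by
      rw [← Set.ncard_pos hF]
      omega
    obtain ⟨y, hy, htop⟩ := hS.exists_top hF hne hsep
    by_cases h1 : ∀ x ∈ F, x = y
    · have : {v ∈ A | v ∉ Between F} = A := by
        ext v
        simp only [Between, Set.mem_ofPred_eq, and_iff_left_iff_imp]
        rintro _ ⟨x, hx, z, hz, hxz, _⟩
        exact hxz ((h1 x hx).trans (h1 z hz).symm)
      rw [this]
      exact hA
    push Not at h1
    obtain ⟨x₀, hx₀, hxy₀⟩ := h1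
    obtain ⟨K₀, hK₀, _, hyK₀⟩ := htop x₀ hx₀ hxy₀
    obtain ⟨K, hK, _, hyK, hFK⟩ := hS.exists_cut htop hK₀ hyK₀
    have hF' : (F \ {y}).Finite := hF.subset Set.sdiff_subset
    have hcard : (F \ {y}).ncard = n := by
      rw [Set.ncard_sdiff_singleton_of_mem hy, hn]
      rfl
    have hih := ih hF' hcard (hsep.sub Set.sdiff_subset)
    have hMK := hS.mod K hK
    intro hctb
    obtain ⟨l, hl⟩ : ∃ l : List G, ∀ x, x ∈ l ↔ x ∈ F \ {y} :=
      ⟨hF'.toFinset.toList, by simp⟩
    have hset : ∀ z, {x | x ∈ l ++ [z]} = insert z (F \ {y}) := by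
      intro z
      ext x
      simp only [Set.mem_ofPred_eq, List.mem_append, List.mem_singleton, hl, Set.mem_insert_iff]
      tauto
    have hlK : ∀ x ∈ l, x ∈ ats c K := fun x hx =>
      hFK x ((hl x).1 hx).1 (fun h' => ((hl x).1 hx).2 h')
    have hT : {t | l ++ t ∈ Bad A} ∈ tr c K := hMK.secs hMK.bad l hlK
    have hyT : y ∈ bas {t | l ++ t ∈ Bad A} := by
      show {v ∈ A | v ∉ Between {x | x ∈ l ++ [y]}}.Countable
      rw [hset, Set.insert_sdiff_singleton, Set.insert_eq_of_mem hy]
      exact hctb
    have hunc : ¬ (bas {t | l ++ t ∈ Bad A}).Countable := fun h' =>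
      hyK (hMK.small _ hT h' hyT)
    have hinf := hMK.large _ hT hunc
    set Z := bas {t | l ++ t ∈ Bad A} ∩ ats c K with hZ
    have hZc : Z.Countable := hMK.ctb.mono Set.inter_subset_right
    have hU : (⋃ z ∈ Z, {v ∈ A | v ∉ Between (insert z (F \ {y}))}).Countable := by
      refine hZc.biUnion fun z hz => ?_
      have := hz.1
      change {v ∈ A | v ∉ Between {x | x ∈ l ++ [z]}}.Countable at this
      rw [hset] at this
      exact this
    obtain ⟨v, hv, hvU⟩ : ∃ v, v ∈ {v ∈ A | v ∉ Between (F \ {y})} ∧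
        v ∉ ⋃ z ∈ Z, {v ∈ A | v ∉ Between (insert z (F \ {y}))} := by
      by_contra hcon
      push Not at hcon
      exact hih (hU.mono hcon)
    refine hinf (Set.Finite.of_injOn (f := fun z => v * z⁻¹ * v) (t := F \ {y}) ?_ ?_ hF')
    · intro z hz
      have h2 : v ∈ Between (insert z (F \ {y})) := by
        by_contra hcon
        exact hvU (Set.mem_biUnion hz ⟨hv.1, hcon⟩)
      obtain ⟨x, hx, w, hw, hxw, he⟩ := h2
      rcases Set.mem_insert_iff.1 hx with rfl | hx'
      · rcases Set.mem_insert_iff.1 hw with rfl | hw'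
        · exact absurd rfl hxw
        · show v * x⁻¹ * v ∈ F \ {y}
          rw [he]
          exact hw'
      · rcases Set.mem_insert_iff.1 hw with rfl | hw'
        · show v * w⁻¹ * v ∈ F \ {y}
          rw [← he, refl_refl]
          exact hx'
        · exact absurd ⟨x, hx', w, hw', hxw, he⟩ hv.2
    · intro z _ w _ h
      exact refl_inj h

end Pool.Agent.MP_af815a_al
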