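import Pool.Agent.Lib.MP_af815a_al.Forcing

set_option autoImplicit false

/-!
# Proper posets

The definition of a proper poset with clubs of countable sets, the covering property of proper
posets, and a criterion for properness with a closure operator.
-/

namespace Pool.Agent.MP_af815a_al

open Set

universe u

/-- `C` is closed and unbounded in the set of all countable subsets of `X`. -/
structure IsClub {X : Type u} (C : Set (Set X)) : Prop where
  countable : ∀ M ∈ C, M.Countable
  unbounded : ∀ A : Set X, A.Countable → ∃ M ∈ C, A ⊆ M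
  closed : ∀ M : ℕ → Set X, (∀ n, M n ⊆ M (n + 1)) → (∀ n, M n ∈ C) → (⋃ n, M n) ∈ C

/-- `D` is dense in `P`. -/
def IsDense {P : Type u} [Preorder P] (D : Set P) : Prop := ∀ p, ∃ q ≤ p, q ∈ D

/-- `q` is an `(M, P)`-generic condition: for every dense set `D` in `M` the set `D ∩ M` is
predense below `q`. -/
def IsGeneric {P : Type u} [Preorder P] (M : Set (P ⊕ Set P)) (q : P) : Prop :=
  ∀ D : Set P, IsDense D → Sum.inr D ∈ M →
    ∀ r ≤ q, ∃ s ∈ D, Sum.inl s ∈ M ∧ ∃ t, t ≤ r ∧ t ≤ s

/-- The poset `P` is proper: for a club of countable subsets `M` of the disjoint union of `P` and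
the set of all subsets of `P`, every condition `p` in `M` has an `(M, P)`-generic extension. -/
def IsProper (P : Type u) [Preorder P] : Prop :=
  ∃ C : Set (Set (P ⊕ Set P)), IsClub C ∧
    ∀ M ∈ C, ∀ p : P, Sum.inl p ∈ M → ∃ q ≤ p, IsGeneric M q

/-! ### The closure under countably many operations -/

section Closure

variable {X : Type u} (op : List X → Set X)

/-- The closure of `A` under the operations. -/
inductive Cl (A : Set X) : X → Prop
  | base {x : X} : x ∈ A → Cl A x
  | step {L : List X} {x : X} : (∀ y ∈ L, Cl A y) → x ∈ op L → Cl A x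

theorem list_bound {S : ℕ → Set X} (hS : ∀ n, S n ⊆ S (n + 1)) {L : List X}
    (h : ∀ y ∈ L, ∃ n, y ∈ S n) : ∃ n, ∀ y ∈ L, y ∈ S n := by
  have hm : Monotone S := monotone_nat_of_le_succ hS
  induction L with
  | nil => exact ⟨0, by simp⟩
  | cons a L ih =>
    obtain ⟨n, hn⟩ := h a (by simp)
    obtain ⟨m, hm'⟩ := ih (fun y hy => h y (by simp [hy]))
    refine ⟨max n m, ?_⟩
    intro y hy
    rcases List.mem_cons.1 hy with rfl | hy
    · exact hm (le_max_left _ _) hn
    · exact hm (le_max_right _ _) (hm' y hy)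

theorem countable_lists {S : Set X} (hS : S.Countable) :
    {L : List X | ∀ y ∈ L, y ∈ S}.Countable := by
  have : Countable S := hS.to_subtype
  refine (Set.countable_range (fun l : List S => l.map Subtype.val)).mono ?_
  intro L hL
  refine ⟨L.attach.map (fun y => ⟨y.1, hL y.1 y.2⟩), ?_⟩
  simp

theorem Cl.mono {A B : Set X} (h : A ⊆ B) {x : X} (hx : Cl op A x) : Cl op B x := by
  induction hx with
  | base hx => exact .base (h hx)
  | step _ hx ih => exact .step ih hx

theorem Cl.idem {A B : Set X} (h : ∀ x ∈ A, Cl op B x) {x : X} (hx : Cl op A x) : Cl op B x := by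
  induction hx with
  | base hx => exact h _ hx
  | step _ hx ih => exact .step ih hx

theorem Cl.union {S : ℕ → Set X} (hS : ∀ n, S n ⊆ S (n + 1)) {x : X}
    (hx : Cl op (⋃ n, S n) x) : ∃ n, Cl op (S n) x := by
  induction hx with
  | base hx =>
    obtain ⟨n, hn⟩ := Set.mem_iUnion.1 hx
    exact ⟨n, .base hn⟩
  | step _ hx ih =>
    obtain ⟨n, hn⟩ := list_bound (S := fun n => {x | Cl op (S n) x})
      (fun n x hx => Cl.mono op (hS n) hx) ih
    exact ⟨n, .step hn hx⟩

/-- The first `n` steps of the closure. -/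
def stage (A : Set X) : ℕ → Set X
  | 0 => A
  | n + 1 => stage A n ∪ ⋃ L ∈ {L : List X | ∀ y ∈ L, y ∈ stage A n}, op L

theorem countable_stage (hop : ∀ L, (op L).Countable) {A : Set X} (hA : A.Countable) (n : ℕ) :
    (stage op A n).Countable := by
  induction n with
  | zero => exact hA
  | succ n ih => exact ih.union ((countable_lists ih).biUnion fun L _ => hop L)

theorem countable_Cl (hop : ∀ L, (op L).Countable) {A : Set X} (hA : A.Countable) :
    {x | Cl op A x}.Countable := by
  refine (Set.countable_iUnion (countable_stage op hop hA)).mono ?_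
  intro x hx
  rw [Set.mem_iUnion]
  induction hx with
  | base hx => exact ⟨0, hx⟩
  | step _ hx ih =>
    obtain ⟨n, hn⟩ := list_bound (S := stage op A) (fun n x hx => Or.inl hx) ih
    exact ⟨n + 1, Or.inr (Set.mem_biUnion (show _ ∈ {L : List X | _} from hn) hx)⟩

/-- A criterion for properness. -/
theorem isProper_of_closure {P : Type u} [Preorder P] (hop : ∀ L, (op L).Countable)
    (i : P ⊕ Set P → X) (hi : Function.Injective i)
    (h : ∀ K : Set X, K.Countable → (∀ L : List X, (∀ x ∈ L, x ∈ K) → op L ⊆ K) →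
      ∀ p : P, i (Sum.inl p) ∈ K → ∃ q ≤ p, IsGeneric (i ⁻¹' K) q) : IsProper P := by
  refine ⟨{M | M.Countable ∧ ∀ y, Cl op (i '' M) (i y) → y ∈ M}, ⟨fun M hM => hM.1, ?_, ?_⟩, ?_⟩
  · intro A hA
    refine ⟨{y | Cl op (i '' A) (i y)}, ⟨?_, ?_⟩, ?_⟩
    · exact (countable_Cl op hop (hA.image i)).preimage hi
    · intro y hy
      refine Cl.idem op ?_ hy
      rintro _ ⟨z, hz, rfl⟩
      exact hz
    · intro y hy
      exact .base ⟨y, hy, rfl⟩
  · intro M hM hMC
    refine ⟨Set.countable_iUnion fun n => (hMC n).1, ?_⟩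
    intro y hy
    rw [Set.image_iUnion] at hy
    obtain ⟨n, hn⟩ := Cl.union op (fun n => Set.image_mono (hM n)) hy
    exact Set.mem_iUnion.2 ⟨n, (hMC n).2 y hn⟩
  · rintro M ⟨hM, hMc⟩ p hp
    obtain ⟨q, hq, hg⟩ := h {x | Cl op (i '' M) x} (countable_Cl op hop (hM.image i))
      (fun L hL x hx => show Cl op (i '' M) x from .step hL hx) p
      (show Cl op (i '' M) (i (Sum.inl p)) from .base ⟨_, hp, rfl⟩)
    refine ⟨q, hq, fun D hD hDM r hr => ?_⟩
    obtain ⟨s, hs, hsM, t, ht⟩ := hg D hD
      (show Cl op (i '' M) (i (Sum.inr D)) from .base ⟨_, hDM, rfl⟩) r hr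
    exact ⟨s, hs, hMc _ hsM, t, ht⟩

end Closure

/-- The covering property: below every condition there is a condition which forces that all values
of a name of a function on the natural numbers are in a countable set of the ground model. -/
theorem IsProper.cover {P : Type u} [Preorder P] (hP : IsProper P) {B : Type u}
    (e : FunName P (ULift.{u} ℕ) B) (p : P) :
    ∃ q ≤ p, ∃ S : Set B, S.Countable ∧ ∀ r ≤ q, ∀ n b, e.app n b r → b ∈ S := by
  classical
  obtain ⟨C, hC, hCg⟩ := hP
  obtain ⟨M, hM, hAM⟩ := hC.unbounded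
    (insert (Sum.inl p) (Set.range fun n : ULift.{u} ℕ => Sum.inr {r : P | ∃ b, e.app n b r}))
    ((Set.countable_range _).insert _)
  obtain ⟨q, hq, hg⟩ := hCg M hM p (hAM (Set.mem_insert _ _))
  refine ⟨q, hq, {b | ∃ n s, Sum.inl s ∈ M ∧ e.app n b s}, ?_, ?_⟩
  · have h1 : {s : P | Sum.inl s ∈ M}.Countable :=
      (hC.countable M hM).preimage (f := (Sum.inl : P → P ⊕ Set P)) Sum.inl_injective
    have h2 : {b | ∃ n s, Sum.inl s ∈ M ∧ e.app n b s} =
        ⋃ n : ULift.{u} ℕ, ⋃ s ∈ {s : P | Sum.inl s ∈ M}, {b | e.app n b s} := by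
      ext b
      simp
    rw [h2]
    refine Set.countable_iUnion fun n => h1.biUnion fun s _ => ?_
    exact Set.Subsingleton.countable fun b hb c hc => e.sv n b c s hb hc
  · intro r hr n b hb
    obtain ⟨s, ⟨c, hc⟩, hsM, t, htr, hts⟩ := hg {r : P | ∃ b, e.app n b r}
      (fun r => by
        obtain ⟨q, hq, b, hb⟩ := e.tot n r
        exact ⟨q, hq, b, hb⟩) (hAM (Or.inr ⟨n, rfl⟩)) r hr
    have h1 := (e.reg n b).1 r t htr hb
    have h2 := (e.reg n c).1 s t hts hc
    rw [e.sv n b c t h1 h2]
    exact ⟨n, s, hsM, hc⟩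

end Pool.Agent.MP_af815a_al
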