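import Pool.Agent.Lib.MP_af815a_al.Models

set_option autoImplicit false

/-!
# Finite conditions with models as side conditions

A condition is a finite admissible subset of `A` together with a finite chain of models which
separates its elements.
-/

namespace Pool.Agent.MP_af815a_al

open Set

universe u

variable {G : Type u} [Group G] (c : ℕ → List G → List G) (A : Set G)

/-- Conditions. -/
structure SCond where
  F : Set G
  S : Set (Set (List G))
  fin : F.Finite
  sub : F ⊆ A
  adm : ∀ x ∈ F, ∀ y ∈ F, ∀ z ∈ F, y * x⁻¹ * y = z → x = z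
  chain : IsChainOfModels c A S
  sep : Separated c S F

variable {c A}

instance : Preorder (SCond c A) where
  le q p := p.F ⊆ q.F ∧ p.S ⊆ q.S
  le_refl _ := ⟨Set.Subset.rfl, Set.Subset.rfl⟩
  le_trans _ _ _ h₁ h₂ := ⟨h₂.1.trans h₁.1, h₂.2.trans h₁.2⟩

theorem SCond.inj {p q : SCond c A} (h1 : p.F = q.F) (h2 : p.S = q.S) : p = q := by
  cases p
  cases q
  cases h1
  cases h2
  rfl

theorem countable_conds {a : Set G} {t : Set (Set (List G))} (ha : a.Countable)
    (ht : t.Countable) : {p : SCond c A | p.F ⊆ a ∧ p.S ⊆ t}.Countable := by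
  refine Set.MapsTo.countable_of_injOn (f := fun p => (p.F, p.S))
    (t := {F | F.Finite ∧ F ⊆ a} ×ˢ {S | S.Finite ∧ S ⊆ t}) ?_ ?_
    ((Set.countable_ofPred_finite_subset ha).prod (Set.countable_ofPred_finite_subset ht))
  · intro p hp
    exact ⟨⟨p.fin, hp.1⟩, ⟨p.chain.fin, hp.2⟩⟩
  · intro p _ q _ h
    exact SCond.inj (congrArg Prod.fst h) (congrArg Prod.snd h)

/-- The sequences which enumerate the new elements of an extension of `q` in `D`. -/
def tree (D : Set (SCond c A)) (q : SCond c A) : Set (List G) :=
  {l | ∃ s ∈ D, s ≤ q ∧ s.F = q.F ∪ {x | x ∈ l}}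

open Classical in
/-- A witness for a sequence in `tree D q`. -/
noncomputable def wit (D : Set (SCond c A)) (q : SCond c A) (l : List G) : SCond c A :=
  if h : l ∈ tree D q then h.choose else q

theorem wit_spec {D : Set (SCond c A)} {q : SCond c A} {l : List G} (h : l ∈ tree D q) :
    wit D q l ∈ D ∧ wit D q l ≤ q ∧ (wit D q l).F = q.F ∪ {x | x ∈ l} := by
  have h1 : wit D q l = h.choose := dif_pos h
  rw [h1]
  exact h.choose_spec

omit [Group G] in
theorem exists_pick (T : Set (List G)) : ∃ Z ⊆ bas T, Z.Countable ∧
    ((bas T).Countable → Z = bas T) ∧ (¬ (bas T).Countable → Z.Infinite) := by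
  by_cases h : (bas T).Countable
  · exact ⟨bas T, Set.Subset.rfl, h, fun _ => rfl, fun h' => absurd h h'⟩
  · have hi : (bas T).Infinite := fun h' => h h'.countable
    let f := hi.natEmbedding
    refine ⟨Set.range fun n => (f n : G), ?_, Set.countable_range _, fun h' => absurd h' h,
      fun _ => ?_⟩
    · rintro _ ⟨n, rfl⟩
      exact (f n).2
    · exact Set.infinite_range_of_injective fun a b hab => f.injective (Subtype.ext hab)

/-- Countably many elements of `bas T`. -/
noncomputable def pick (T : Set (List G)) : Set G := (exists_pick T).choose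

/-! ### The operations -/

variable (c A) in
/-- The objects: conditions, sets of conditions, elements of `G`, sets of finite sequences. -/
abbrev Obj : Type u := (SCond c A ⊕ Set (SCond c A)) ⊕ (G ⊕ Set (List G))

/-- An element as an object. -/
abbrev elt (x : G) : Obj c A := Sum.inr (Sum.inl x)

/-- A set of sequences as an object. -/
abbrev tset (T : Set (List G)) : Obj c A := Sum.inr (Sum.inr T)

/-- A condition as an object. -/
abbrev cond (p : SCond c A) : Obj c A := Sum.inl (Sum.inl p)

/-- A set of conditions as an object. -/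
abbrev dset (D : Set (SCond c A)) : Obj c A := Sum.inl (Sum.inr D)

/-- The first operations. -/
def op1 : List (Obj c A) → Set (Obj c A)
  | [] => {tset (Bad A)}
  | [.inr (.inr T)] => {tset (der T)} ∪ Set.range (fun n => tset (row c T n)) ∪ elt '' pick T
  | [.inl (.inl p)] => elt '' p.F ∪ tset '' p.S
  | [.inr (.inl x), .inr (.inl y)] => {elt (y * x⁻¹ * y)}
  | [.inr (.inr T), .inr (.inl x)] => {tset (sec T x)}
  | [.inl (.inr D), .inl (.inl q)] => {tset (tree D q)}
  | _ => ∅

/-- The conditions with given elements and models. -/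
def op2 (L : List (Obj c A)) : Set (Obj c A) :=
  cond '' {p | p.F ⊆ {x | elt x ∈ L} ∧ p.S ⊆ {N | tset N ∈ L}}

/-- The witnesses. -/
def op3 (L : List (Obj c A)) : Set (Obj c A) :=
  {o | ∃ D q l, L = dset D :: cond q :: l.map elt ∧ o = cond (wit D q l)}

theorem elt_inj : Function.Injective (elt : G → Obj c A) := fun x y h => by
  simpa using h

theorem tset_inj : Function.Injective (tset : Set (List G) → Obj c A) := fun x y h => by
  simpa using h

theorem countable_op1 (L : List (Obj c A)) : (op1 L).Countable := by
  unfold op1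
  split
  · exact Set.countable_singleton _
  · exact ((Set.countable_singleton _).union (Set.countable_range _)).union
      ((exists_pick _).choose_spec.2.1.image _)
  · rename_i p
    exact (p.fin.countable.image _).union (p.chain.fin.countable.image _)
  · exact Set.countable_singleton _
  · exact Set.countable_singleton _
  · exact Set.countable_singleton _
  · exact Set.countable_empty

theorem countable_op2 (L : List (Obj c A)) : (op2 L).Countable := by
  refine Set.Countable.image (countable_conds ?_ ?_) _
  · exact (List.finite_toSet L).countable.preimage elt_inj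
  · exact (List.finite_toSet L).countable.preimage tset_inj

theorem countable_op3 (L : List (Obj c A)) : (op3 L).Countable := by
  refine Set.Subsingleton.countable ?_
  rintro _ ⟨D, q, l, hL, rfl⟩ _ ⟨D', q', l', hL', rfl⟩
  rw [hL] at hL'
  simp only [List.cons.injEq, Sum.inl.injEq, Sum.inr.injEq] at hL'
  obtain ⟨rfl, rfl, h3⟩ := hL'
  rw [List.map_injective_iff.2 elt_inj h3]

/-- All operations. -/
def op (L : List (Obj c A)) : Set (Obj c A) := op1 L ∪ op2 L ∪ op3 L

theorem countable_op (L : List (Obj c A)) : (op L).Countable :=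
  ((countable_op1 L).union (countable_op2 L)).union (countable_op3 L)

/-- A countable set of objects closed under the operations. -/
structure Closed (K : Set (Obj c A)) : Prop where
  ctb : K.Countable
  cl : ∀ L : List (Obj c A), (∀ x ∈ L, x ∈ K) → op L ⊆ K

theorem Closed.cl1 {K : Set (Obj c A)} (hK : Closed K) {L : List (Obj c A)}
    (hL : ∀ x ∈ L, x ∈ K) : op1 L ⊆ K := fun _ hx => hK.cl L hL (Or.inl (Or.inl hx))

/-- A closed set of objects gives a model. -/
theorem Closed.model (hc : ∀ n m l l', c n l = c m l' → n = m ∧ l = l') {K : Set (Obj c A)}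
    (hK : Closed K) :
    ∃ N, IsModel c A N ∧ ats c N = {x | elt x ∈ K} ∧ tr c N = {T | tset T ∈ K} := by
  have hbad : tset (Bad A) ∈ K := hK.cl1 (L := []) (by simp) rfl
  have ht : {T | (tset T : Obj c A) ∈ K}.Countable := hK.ctb.preimage tset_inj
  obtain ⟨N, hNa, hNt⟩ := exists_code c hc {x | (elt x : Obj c A) ∈ K} ht ⟨Bad A, hbad⟩
  refine ⟨N, ?_, hNa, hNt⟩
  constructor <;> simp only [hNa, hNt]
  · exact hK.ctb.preimage elt_inj
  · intro x hx y hy
    refine hK.cl1 (L := [elt x, elt y]) ?_ rfl
    intro o ho
    simp only [List.mem_cons, List.not_mem_nil, or_false] at ho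
    rcases ho with rfl | rfl
    · exact hx
    · exact hy
  · intro T hT x hx
    refine hK.cl1 (L := [tset T, elt x]) ?_ rfl
    intro o ho
    simp only [List.mem_cons, List.not_mem_nil, or_false] at ho
    rcases ho with rfl | rfl
    · exact hT
    · exact hx
  · intro T hT
    refine hK.cl1 (L := [tset T]) (by simpa using hT) ?_
    exact Or.inl (Or.inl rfl)
  · intro T hT n
    refine hK.cl1 (L := [tset T]) (by simpa using hT) ?_
    exact Or.inl (Or.inr ⟨n, rfl⟩)
  · exact hbad
  · intro T hT hb x hx
    refine hK.cl1 (L := [tset T]) (by simpa using hT) ?_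
    refine Or.inr ⟨x, ?_, rfl⟩
    have h1 : pick T = bas T := (exists_pick T).choose_spec.2.2.1 hb
    rw [h1]
    exact hx
  · intro T hT hb
    have h1 : (pick T).Infinite := (exists_pick T).choose_spec.2.2.2 hb
    refine h1.mono ?_
    intro x hx
    refine ⟨(exists_pick T).choose_spec.1 hx, ?_⟩
    exact hK.cl1 (L := [tset T]) (by simpa using hT) (Or.inr ⟨x, hx, rfl⟩)

theorem closed_Cl {B : Set (Obj c A)} (hB : B.Countable) : Closed {x | Cl op B x} :=
  ⟨countable_Cl op countable_op hB, fun _ hL x hx => show Cl op B x from .step hL hx⟩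

/-- Countably many elements and sets of sequences belong to a model. -/
theorem exists_model (hc : ∀ n m l l', c n l = c m l' → n = m ∧ l = l') {a : Set G}
    {t : Set (Set (List G))} (ha : a.Countable) (ht : t.Countable) :
    ∃ N, IsModel c A N ∧ a ⊆ ats c N ∧ t ⊆ tr c N := by
  have hB : (elt '' a ∪ tset '' t : Set (Obj c A)).Countable := (ha.image _).union (ht.image _)
  obtain ⟨N, hN, hNa, hNt⟩ := (closed_Cl hB).model hc
  refine ⟨N, hN, ?_, ?_⟩
  · intro x hx
    rw [hNa]
    exact show Cl op _ _ from .base (Or.inl ⟨x, hx, rfl⟩)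
  · intro T hT
    rw [hNt]
    exact show Cl op _ _ from .base (Or.inr ⟨T, hT, rfl⟩)

/-! ### New elements -/

theorem IsChainOfModels.insert {S : Set (Set (List G))} (hS : IsChainOfModels c A S)
    {N : Set (List G)} (hN : IsModel c A N) (hSN : S ⊆ tr c N) :
    IsChainOfModels c A (insert N S) := by
  refine ⟨hS.fin.insert N, ?_, ?_⟩
  · intro K hK
    rcases Set.mem_insert_iff.1 hK with rfl | hK
    · exact hN
    · exact hS.mod K hK
  · intro K hK L hL hne
    rcases Set.mem_insert_iff.1 hK with rfl | hK'
    · rcases Set.mem_insert_iff.1 hL with rfl | hL'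
      · exact absurd rfl hne
      · exact Or.inr (hSN hL')
    · rcases Set.mem_insert_iff.1 hL with rfl | hL'
      · exact Or.inl (hSN hK')
      · exact hS.chain K hK' L hL' hne

/-- Every condition has an extension with an element outside of a given countable set. -/
theorem exists_new (hc : ∀ n m l l', c n l = c m l' → n = m ∧ l = l') (hA : ¬ A.Countable)
    (p : SCond c A) {C : Set G} (hC : C.Countable) : ∃ q ≤ p, ∃ x ∈ q.F, x ∉ C := by
  obtain ⟨N, hN, hNa, hNt⟩ := exists_model (A := A) hc (p.fin.countable.union hC)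
    p.chain.fin.countable
  have h1 := p.chain.not_bad hA _ p.fin rfl p.sep
  obtain ⟨y, hy, hyN⟩ : ∃ y, y ∈ {y ∈ A | y ∉ Between p.F} ∧ y ∉ ats c N := by
    by_contra hcon
    push Not at hcon
    exact h1 (hN.ctb.mono hcon)
  have hFN : p.F ⊆ ats c N := fun x hx => hNa (Or.inl hx)
  refine ⟨⟨insert y p.F, insert N p.S, p.fin.insert y, ?_, ?_, p.chain.insert hN hNt, ?_⟩,
    ⟨Set.subset_insert _ _, Set.subset_insert _ _⟩, y, Set.mem_insert _ _,
    fun h => hyN (hNa (Or.inr h))⟩
  · intro x hx
    rcases Set.mem_insert_iff.1 hx with rfl | hx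
    · exact hy.1
    · exact p.sub hx
  · intro x hx w hw z hz h
    rcases Set.mem_insert_iff.1 hw with rfl | hw'
    · rcases Set.mem_insert_iff.1 hx with rfl | hx'
      · rw [← h]
        group
      · rcases Set.mem_insert_iff.1 hz with rfl | hz'
        · have h2 := refl_refl x z
          rw [h] at h2
          rw [← h2]
          group
        · by_contra hxz
          exact hy.2 ⟨x, hx', z, hz', hxz, h⟩
    · rcases Set.mem_insert_iff.1 hx with rfl | hx'
      · rcases Set.mem_insert_iff.1 hz with rfl | hz'
        · rfl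
        · exfalso
          have h2 := refl_refl x w
          rw [h] at h2
          rw [← h2] at hyN
          exact hyN (hN.theta z (hFN hz') w (hFN hw'))
      · rcases Set.mem_insert_iff.1 hz with rfl | hz'
        · exfalso
          rw [← h] at hyN
          exact hyN (hN.theta x (hFN hx') w (hFN hw'))
        · exact p.adm x hx' w hw' z hz' h
  · intro x hx z hz hxz
    rcases Set.mem_insert_iff.1 hx with rfl | hx'
    · rcases Set.mem_insert_iff.1 hz with rfl | hz'
      · exact absurd rfl hxz
      · exact ⟨N, Set.mem_insert _ _, Or.inr ⟨hFN hz', hyN⟩⟩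
    · rcases Set.mem_insert_iff.1 hz with rfl | hz'
      · exact ⟨N, Set.mem_insert _ _, Or.inl ⟨hFN hx', hyN⟩⟩
      · obtain ⟨K, hK, h⟩ := p.sep x hx' z hz' hxz
        exact ⟨K, Or.inr hK, h⟩

end Pool.Agent.MP_af815a_al
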