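import Pool.Agent.Lib.MP_af815a_al.Side

set_option autoImplicit false

/-!
# The poset of conditions with models as side conditions is proper
-/

namespace Pool.Agent.MP_af815a_al

open Set

universe u

variable {G : Type u} [Group G] {c : ℕ → List G → List G} {A : Set G}

/-- Different elements outside of a model in the chain are separated by a larger model. -/
theorem exists_larger {S : Set (Set (List G))} (hS : IsChainOfModels c A S) {F : Set G}
    (hsep : Separated c S F) {N : Set (List G)} (hN : N ∈ S) {x z : G} (hx : x ∈ F) (hz : z ∈ F)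
    (hxN : x ∉ ats c N) (hzN : z ∉ ats c N) (hxz : x ≠ z) :
    ∃ K ∈ S, ats c N ⊆ ats c K ∧ ((x ∈ ats c K ∧ z ∉ ats c K) ∨ (z ∈ ats c K ∧ x ∉ ats c K)) := by
  obtain ⟨K, hK, h⟩ := hsep x hx z hz hxz
  refine ⟨K, hK, ?_, h⟩
  have hne : N ≠ K := by
    rintro rfl
    rcases h with h | h
    · exact hxN h.1
    · exact hzN h.1
  rcases hS.chain N hN K hK hne with h2 | h2
  · exact (hS.mod K hK).ats_sub (hS.mod N hN) h2
  · exfalso
    have h3 := (hS.mod N hN).ats_sub (hS.mod K hK) h2
    rcases h with h | h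
    · exact hxN (h3 h.1)
    · exact hzN (h3 h.1)

/-- The part of a condition in a model. -/
def restr (r : SCond c A) {N : Set (List G)} (hN : N ∈ r.S) : SCond c A where
  F := r.F ∩ ats c N
  S := r.S ∩ tr c N
  fin := r.fin.subset Set.inter_subset_left
  sub := Set.inter_subset_left.trans r.sub
  adm x hx y hy z hz := r.adm x hx.1 y hy.1 z hz.1
  chain := r.chain.sub Set.inter_subset_left
  sep := by
    intro x hx y hy hxy
    obtain ⟨K, hK, h⟩ := r.sep x hx.1 y hy.1 hxy
    refine ⟨K, ⟨hK, ?_⟩, h⟩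
    have hne : K ≠ N := by
      rintro rfl
      rcases h with h | h
      · exact h.2 hy.2
      · exact h.2 hx.2
    rcases r.chain.chain K hK N hN hne with h2 | h2
    · exact h2
    · exfalso
      have h3 := (r.chain.mod K hK).ats_sub (r.chain.mod N hN) h2
      rcases h with h | h
      · exact h.2 (h3 hy.2)
      · exact h.2 (h3 hx.2)

/-- The amalgamation of a condition `r` with an extension `s` in the model `N` of the part of `r`
in `N`. -/
theorem exists_amalgam (r s : SCond c A) {N : Set (List G)} (hN : N ∈ r.S)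
    (hs : s ≤ restr r hN) (hsF : s.F ⊆ ats c N) (hsS : s.S ⊆ tr c N)
    (h1 : ∀ x ∈ s.F, x ∉ r.F → ∀ w ∈ r.F \ ats c N, ∀ v ∈ r.F, w * v⁻¹ * w ≠ x)
    (h2 : ∀ x ∈ s.F, x ∉ r.F → ∀ z ∈ s.F, z ∉ r.F → x ≠ z →
      ∀ w ∈ r.F \ ats c N, w * x⁻¹ * w ≠ z) :
    ∃ t, t ≤ r ∧ t ≤ s := by
  have hNm := r.chain.mod N hN
  have hcase : ∀ x ∈ s.F ∪ r.F, x ∈ s.F ∨ x ∈ r.F \ ats c N := by
    rintro x (hx | hx)
    · exact Or.inl hx
    · by_cases hxN : x ∈ ats c N
      · exact Or.inl (hs.1 ⟨hx, hxN⟩)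
      · exact Or.inr ⟨hx, hxN⟩
  refine ⟨⟨s.F ∪ r.F, s.S ∪ r.S, s.fin.union r.fin, Set.union_subset s.sub r.sub, ?_, ?_, ?_⟩,
    ⟨Set.subset_union_right, Set.subset_union_right⟩,
    ⟨Set.subset_union_left, Set.subset_union_left⟩⟩
  · intro x hx w hw z hz h
    have h' : w * z⁻¹ * w = x := by
      rw [← h]
      exact refl_refl x w
    rcases hcase w hw with hw | hw
    · rcases hcase x hx with hx | hx
      · rcases hcase z hz with hz | hz
        · exact s.adm x hx w hw z hz h
        · refine absurd ?_ hz.2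
          rw [← h]
          exact hNm.theta x (hsF hx) w (hsF hw)
      · rcases hcase z hz with hz | hz
        · refine absurd ?_ hx.2
          rw [← h']
          exact hNm.theta z (hsF hz) w (hsF hw)
        · by_contra hxz
          obtain ⟨K, hK, hNK, h3 | h3⟩ := exists_larger r.chain r.sep hN hx.1 hz.1 hx.2 hz.2 hxz
          · refine h3.2 ?_
            rw [← h]
            exact (r.chain.mod K hK).theta x h3.1 w (hNK (hsF hw))
          · refine h3.2 ?_
            rw [← h']
            exact (r.chain.mod K hK).theta z h3.1 w (hNK (hsF hw))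
    · rcases hcase x hx with hx | hx
      · rcases hcase z hz with hz | hz
        · by_contra hxz
          by_cases hxr : x ∈ r.F
          · by_cases hzr : z ∈ r.F
            · exact hxz (r.adm x hxr w hw.1 z hzr h)
            · exact h1 z hz hzr w hw x hxr h
          · by_cases hzr : z ∈ r.F
            · exact h1 x hx hxr w hw z hzr h'
            · exact h2 x hx hxr z hz hzr hxz w hw h
        · by_cases hxr : x ∈ r.F
          · exact r.adm x hxr w hw.1 z hz.1 h
          · exact absurd h' (h1 x hx hxr w hw z hz.1)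
      · rcases hcase z hz with hz | hz
        · by_cases hzr : z ∈ r.F
          · exact r.adm x hx.1 w hw.1 z hzr h
          · exact absurd h (h1 z hz hzr w hw x hx.1)
        · exact r.adm x hx.1 w hw.1 z hz.1 h
  · refine ⟨s.chain.fin.union r.chain.fin, ?_, ?_⟩
    · rintro K (hK | hK)
      · exact s.chain.mod K hK
      · exact r.chain.mod K hK
    · have h3 : ∀ K ∈ s.S, ∀ L ∈ r.S, K ≠ L → K ∈ tr c L ∨ L ∈ tr c K := by
        intro K hK L hL hne
        by_cases hLN : L = N
        · subst hLN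
          exact Or.inl (hsS hK)
        · rcases r.chain.chain L hL N hN hLN with h4 | h4
          · exact s.chain.chain K hK L (hs.2 ⟨hL, h4⟩) hne
          · exact Or.inl ((r.chain.mod L hL).tr_sub h4 (hsS hK))
      rintro K (hK | hK) L (hL | hL) hne
      · exact s.chain.chain K hK L hL hne
      · exact h3 K hK L hL hne
      · exact (h3 L hL K hK hne.symm).symm
      · exact r.chain.chain K hK L hL hne
  · intro x hx y hy hxy
    rcases hcase x hx with hx | hx
    · rcases hcase y hy with hy | hy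
      · obtain ⟨K, hK, h⟩ := s.sep x hx y hy hxy
        exact ⟨K, Or.inl hK, h⟩
      · exact ⟨N, Or.inr hN, Or.inl ⟨hsF hx, hy.2⟩⟩
    · rcases hcase y hy with hy | hy
      · exact ⟨N, Or.inr hN, Or.inr ⟨hsF hy, hx.2⟩⟩
      · obtain ⟨K, hK, h⟩ := r.sep x hx.1 y hy.1 hxy
        exact ⟨K, Or.inr hK, h⟩

/-- A condition with a model given by a closed set of objects on top is generic. -/
theorem exists_generic (hc : ∀ n m l l', c n l = c m l' → n = m ∧ l = l') {K : Set (Obj c A)}
    (hK : Closed K) (p : SCond c A) (hp : cond p ∈ K) : ∃ q ≤ p, IsGeneric (Sum.inl ⁻¹' K) q := by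
  obtain ⟨N, hN, hNa, hNt⟩ := hK.model hc
  have hcond : ∀ s : SCond c A, cond s ∈ K → s.F ⊆ ats c N ∧ s.S ⊆ tr c N := by
    intro s hs
    rw [hNa, hNt]
    constructor
    · intro x hx
      exact hK.cl1 (L := [cond s]) (by simpa using hs) (Or.inl ⟨x, hx, rfl⟩)
    · intro T hT
      exact hK.cl1 (L := [cond s]) (by simpa using hs) (Or.inr ⟨T, hT, rfl⟩)
  have hcond' : ∀ s : SCond c A, s.F ⊆ ats c N → s.S ⊆ tr c N → cond s ∈ K := by
    intro s hs1 hs2
    rw [hNa] at hs1
    rw [hNt] at hs2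
    refine hK.cl (s.fin.toFinset.toList.map elt ++ s.chain.fin.toFinset.toList.map tset) ?_
      (Or.inl (Or.inr ⟨s, ⟨?_, ?_⟩, rfl⟩))
    · intro o ho
      rw [List.mem_append, List.mem_map, List.mem_map] at ho
      rcases ho with ⟨x, hx, rfl⟩ | ⟨x, hx, rfl⟩
      · exact hs1 (by simpa using hx)
      · exact hs2 (by simpa using hx)
    · intro x hx
      refine List.mem_append_left _ (List.mem_map.2 ⟨x, ?_, rfl⟩)
      simpa using hx
    · intro x hx
      refine List.mem_append_right _ (List.mem_map.2 ⟨x, ?_, rfl⟩)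
      simpa using hx
  refine ⟨⟨p.F, insert N p.S, p.fin, p.sub, p.adm, p.chain.insert hN (hcond p hp).2, ?_⟩,
    ⟨Set.Subset.rfl, Set.subset_insert _ _⟩, ?_⟩
  · intro x hx y hy hxy
    obtain ⟨L, hL, h⟩ := p.sep x hx y hy hxy
    exact ⟨L, Or.inr hL, h⟩
  intro D hD hDK r₀ hr₀
  obtain ⟨r, hr, hrD⟩ := hD r₀
  suffices h : ∃ s ∈ D, cond s ∈ K ∧ ∃ t, t ≤ r ∧ t ≤ s by
    obtain ⟨s, hs, hsK, t, ht, hts⟩ := h
    exact ⟨s, hs, hsK, t, ht.trans hr, hts⟩
  have hNr : N ∈ r.S := hr.2 (hr₀.2 (Set.mem_insert _ _))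
  have hrN : r ≤ restr r hNr := ⟨Set.inter_subset_left, Set.inter_subset_left⟩
  have hrNK : cond (restr r hNr) ∈ K :=
    hcond' _ Set.inter_subset_right Set.inter_subset_right
  have hYfin : (r.F \ ats c N).Finite := r.fin.subset Set.sdiff_subset
  have hT : tree D (restr r hNr) ∈ tr c N := by
    rw [hNt]
    refine hK.cl1 (L := [dset D, cond (restr r hNr)]) ?_ rfl
    intro o ho
    simp only [List.mem_cons, List.not_mem_nil, or_false] at ho
    rcases ho with rfl | rfl
    · exact hDK
    · exact hrNK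
  have hnil := r.chain.nil_mem_der hNr _ hYfin rfl (r.sep.sub Set.sdiff_subset)
    (fun y hy => hy.2) hT (by
      intro l _ hl
      refine ⟨r, hrD, hrN, ?_⟩
      ext x
      show x ∈ r.F ↔ x ∈ (r.F ∩ ats c N) ∪ {x | x ∈ l}
      simp only [Set.mem_union, Set.mem_inter_iff, Set.mem_ofPred_eq, hl, Set.mem_sdiff]
      tauto)
  obtain ⟨l, hl, hl1, hl2⟩ := hN.exists_list
    (fun x => (fun w => w * x⁻¹ * w) '' (r.F \ ats c N)) (fun x => hYfin.image _) _ hT hnil
    (E := ⋃ v ∈ r.F, (fun w => w * v⁻¹ * w) '' (r.F \ ats c N))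
    (r.fin.biUnion fun v _ => hYfin.image _)
  obtain ⟨hs1, hs2, hs3⟩ := wit_spec hl
  have hsK : cond (wit D (restr r hNr) l) ∈ K := by
    refine hK.cl (dset D :: cond (restr r hNr) :: l.map elt) ?_ (Or.inr ⟨D, _, l, rfl, rfl⟩)
    intro o ho
    rw [List.mem_cons, List.mem_cons, List.mem_map] at ho
    rcases ho with rfl | rfl | ⟨x, hx, rfl⟩
    · exact hDK
    · exact hrNK
    · have := (hl1 x hx).1
      rw [hNa] at this
      exact this
  have hnew : ∀ x ∈ (wit D (restr r hNr) l).F, x ∉ r.F → x ∈ l := by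
    intro x hx hxr
    rw [hs3] at hx
    rcases hx with hx | hx
    · exact absurd hx.1 hxr
    · exact hx
  refine ⟨_, hs1, hsK, exists_amalgam r _ hNr hs2 (hcond _ hsK).1 (hcond _ hsK).2 ?_ ?_⟩
  · intro x hx hxr w hw v hv he
    refine (hl1 x (hnew x hx hxr)).2 (Set.mem_biUnion hv ⟨w, hw, he⟩)
  · intro x hx hxr z hz hzr hxz w hw he
    have hsymm : Std.Symm (fun x z : G => ∀ w ∈ r.F \ ats c N, w * x⁻¹ * w ≠ z) := by
      refine ⟨fun a b hab w hw he => hab w hw ?_⟩
      rw [← he]
      exact refl_refl b w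
    have hpw : l.Pairwise (fun x z : G => ∀ w ∈ r.F \ ats c N, w * x⁻¹ * w ≠ z) :=
      hl2.imp fun {a b} hab w hw he => hab ⟨w, hw, he⟩
    exact hpw.forall (hnew x hx hxr) (hnew z hz hzr) hxz w hw he

/-- The poset is proper. -/
theorem isProper_SCond (hc : ∀ n m l l', c n l = c m l' → n = m ∧ l = l') :
    IsProper (SCond c A) :=
  isProper_of_closure (op : List (Obj c A) → Set (Obj c A)) countable_op Sum.inl
    Sum.inl_injective (fun _ hKc hK p hp => exists_generic hc ⟨hKc, hK⟩ p hp)

end Pool.Agent.MP_af815a_al
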