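import Pool.Agent.Lib.MP_af815a_al.Block

set_option autoImplicit false

/-!
Admissible subsets of sets of singular strong limit cardinality.
-/

namespace Pool.Agent.Lib.MP_af815a_al

open Cardinal

universe u

section

variable {G : Type u} [Group G]

/-- the specification of a block of length `c` over `L` -/
def BSpec (A L : Set G) (c : Cardinal.{u}) (d : G × (c.ord.ToType → G)) : Prop :=
  ∀ i, d.2 i ∈ A ∧ d.2 i ∉ Subgroup.closure (prev L d.2 i) ∧
    ∀ x ∈ prev L d.2 i, ∀ z ∈ prev L d.2 i, (Mir (d.2 i) x z ↔ Mir d.1 x z)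

open Classical in
/-- a block, if there is one -/
noncomputable def bdata (A L : Set G) (c : Cardinal.{u}) : G × (c.ord.ToType → G) :=
  if h : ∃ d, BSpec A L c d then h.choose else (1, fun _ => 1)

lemma bdata_spec (A L : Set G) (c : Cardinal.{u}) (hc : ℵ₀ ≤ c) (hL : #L ≤ c)
    (hA : 2 ^ c < #A) : BSpec A L c (bdata A L c) := by
  have hc' : #(c.ord.ToType) = c := by simp
  have h : ∃ d, BSpec A L c d := by
    obtain ⟨y, h, hh⟩ := exists_block (I := c.ord.ToType) A L (by rw [hc']; exact hc)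
      (by rw [hc']; exact hL) (by rw [hc']; exact hA)
    exact ⟨(y, h), hh⟩
  unfold bdata
  rw [dif_pos h]
  exact h.choose_spec

variable {J : Type u}

/-- the blocks, by recursion -/
noncomputable def blk (A : Set G) (k : J → Cardinal.{u}) : Cardinal.{u} → Set G :=
  WellFounded.fix Cardinal.lt_wf
    (fun c ih => Set.range (bdata A {g | ∃ (j : J) (hj : k j < c), g ∈ ih (k j) hj} c).2)

/-- the union of the earlier blocks -/
def base (A : Set G) (k : J → Cardinal.{u}) (c : Cardinal.{u}) : Set G :=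
  {g | ∃ j, k j < c ∧ g ∈ blk A k (k j)}

/-- enumeration of a block -/
noncomputable def enm (A : Set G) (k : J → Cardinal.{u}) (c : Cardinal.{u}) : c.ord.ToType → G :=
  (bdata A (base A k c) c).2

/-- the element imitated by a block -/
noncomputable def tgt (A : Set G) (k : J → Cardinal.{u}) (c : Cardinal.{u}) : G :=
  (bdata A (base A k c) c).1

lemma blk_eq (A : Set G) (k : J → Cardinal.{u}) (c : Cardinal.{u}) :
    blk A k c = Set.range (enm A k c) := by
  conv_lhs => rw [blk, WellFounded.fix_eq]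
  unfold enm
  congr 2
  have : {g | ∃ (j : J) (hj : k j < c), g ∈ (fun y (_ : y < c) => WellFounded.fix Cardinal.lt_wf
      (fun c ih => Set.range (bdata A {g | ∃ (j : J) (hj : k j < c), g ∈ ih (k j) hj} c).2) y)
      (k j) hj} = base A k c := by
    ext g
    constructor
    · rintro ⟨j, hj, h⟩
      exact ⟨j, hj, h⟩
    · rintro ⟨j, hj, h⟩
      exact ⟨j, hj, h⟩
  rw [this]

lemma mk_blk_le (A : Set G) (k : J → Cardinal.{u}) (c : Cardinal.{u}) : #(blk A k c) ≤ c := by
  rw [blk_eq]
  refine mk_range_le.trans ?_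
  simp

lemma mk_base_le (A : Set G) (k : J → Cardinal.{u}) (c : Cardinal.{u}) (hc : ℵ₀ ≤ c)
    (hJ : #J ≤ c) : #(base A k c) ≤ c := by
  have h1 : base A k c ⊆ ⋃ j : {j : J // k j < c}, blk A k (k j) := by
    rintro g ⟨j, hj, hg⟩
    exact Set.mem_iUnion.mpr ⟨⟨j, hj⟩, hg⟩
  refine (mk_le_mk_of_subset h1).trans ?_
  refine (mk_iUnion_le_sum_mk).trans ?_
  refine (sum_le_sum _ (fun _ => c) (fun j => (mk_blk_le A k _).trans j.2.le)).trans ?_
  rw [sum_const, lift_id, lift_id]
  calc #{j : J // k j < c} * c ≤ c * c := by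
        gcongr
        exact (mk_subtype_le _).trans hJ
    _ = c := mul_eq_self hc

/-- the value of an index -/
noncomputable def evalp (A : Set G) (k : J → Cardinal.{u})
    (p : Σₗ c : Cardinal.{u}, c.ord.ToType) : G := enm A k p.1 p.2

/-- the elements which are earlier than an index -/
def early (A : Set G) (k : J → Cardinal.{u}) (p : Σₗ c : Cardinal.{u}, c.ord.ToType) : Set G :=
  prev (base A k p.1) (enm A k p.1) p.2

lemma mem_early (A : Set G) (k : J → Cardinal.{u}) {p q : Σₗ c : Cardinal.{u}, c.ord.ToType}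
    (hp : ∃ j, k j = p.1) (h : p < q) : evalp A k p ∈ early A k q := by
  obtain ⟨j, hj⟩ := hp
  cases h with
  | left a b hab =>
    left
    refine ⟨j, ?_, ?_⟩
    · rw [hj]; exact hab
    · rw [hj, blk_eq]
      exact ⟨_, rfl⟩
  | right a b hab =>
    right
    exact ⟨_, hab, rfl⟩

/-- a cofinal family of cardinals below a singular cardinal -/
lemma exists_cofinal {κ : Cardinal.{u}} (hκ : κ.IsSingular) :
    ∃ (J : Type u) (k : J → Cardinal.{u}), #J < κ ∧ (∀ j, k j < κ) ∧ (∀ j, ℵ₀ ≤ k j) ∧
      (∀ j, #J ≤ k j) ∧ ∀ b < κ, ∃ j, b ≤ k j := by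
  have h0 : ℵ₀ < κ := by
    refine lt_of_le_of_ne hκ.aleph0_le ?_
    rintro rfl
    exact not_isSingular_aleph0 hκ
  obtain ⟨J, f, hf, hJ⟩ := Ordinal.exists_lsub_cof κ.ord
  have hJκ : #J < κ := by rw [hJ]; exact hκ.cof_ord_lt
  have hfκ : ∀ j, f j < κ.ord := fun j => by rw [← hf]; exact Ordinal.lt_lsub f j
  refine ⟨J, fun j => max (f j).card (max #J ℵ₀), hJκ, ?_, ?_, ?_, ?_⟩
  · intro j
    refine max_lt ?_ (max_lt hJκ h0)
    exact lt_ord.mp (hfκ j)
  · intro j
    exact (le_max_right _ _).trans (le_max_right _ _)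
  · intro j
    exact (le_max_left _ _).trans (le_max_right _ _)
  · intro b hb
    have hb' : b.ord < Ordinal.lsub f := by rw [hf]; exact ord_lt_ord.mpr hb
    obtain ⟨j, hj⟩ := (Ordinal.lt_lsub_iff).mp hb'
    refine ⟨j, le_trans ?_ (le_max_left _ _)⟩
    exact ord_le.mp hj

/-- Every set of elements of a group whose cardinality is a singular strong limit cardinal
contains an admissible subset of the same cardinality. -/
theorem exists_admissible (A : Set G) (hsl : (#A).IsStrongLimit) (hsi : (#A).IsSingular) :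
    ∃ H ⊆ A, #H = #A ∧ ∀ x ∈ H, ∀ y ∈ H, ∀ z ∈ H, x⁻¹ * y = y⁻¹ * z → x = z := by
  classical
  obtain ⟨J, k, hJ, hk, hk0, hkJ, hcof⟩ := exists_cofinal hsi
  have hspec : ∀ c, (∃ j, k j = c) → BSpec A (base A k c) c (tgt A k c, enm A k c) := by
    rintro _ ⟨j, rfl⟩
    exact bdata_spec A _ _ (hk0 j) (mk_base_le A k _ (hk0 j) (hkJ j))
      (hsl.isStrongPrelimit (hk j))
  -- the three properties of the indices
  have hA : ∀ p : Σₗ c : Cardinal.{u}, c.ord.ToType, (∃ j, k j = p.1) → evalp A k p ∈ A :=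
    fun p hp => (hspec _ hp p.2).1
  have hcl : ∀ p : Σₗ c : Cardinal.{u}, c.ord.ToType, (∃ j, k j = p.1) →
      evalp A k p ∉ Subgroup.closure (early A k p) := fun p hp => (hspec _ hp p.2).2.1
  have htr : ∀ p : Σₗ c : Cardinal.{u}, c.ord.ToType, (∃ j, k j = p.1) →
      ∀ x ∈ early A k p, ∀ z ∈ early A k p, (Mir (evalp A k p) x z ↔ Mir (tgt A k p.1) x z) :=
    fun p hp => (hspec _ hp p.2).2.2
  -- the union of the blocks
  set B : Set G := {g | ∃ j, g ∈ blk A k (k j)} with hB
  have hidx : ∀ u : B, ∃ p : Σₗ c : Cardinal.{u}, c.ord.ToType, (∃ j, k j = p.1) ∧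
      evalp A k p = u := by
    rintro ⟨u, j, hu⟩
    rw [blk_eq] at hu
    obtain ⟨i, rfl⟩ := hu
    exact ⟨⟨k j, i⟩, ⟨j, rfl⟩, rfl⟩
  choose r hr1 hr2 using hidx
  have hinj : ∀ j, Function.Injective (enm A k (k j)) := by
    intro j i i' hii
    rcases lt_trichotomy i i' with h | h | h
    · exfalso
      apply (hspec _ ⟨j, rfl⟩ i').2.1
      apply Subgroup.subset_closure
      right
      exact ⟨i, h, hii.symm⟩
    · exact h
    · exfalso
      apply (hspec _ ⟨j, rfl⟩ i).2.1
      apply Subgroup.subset_closure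
      right
      exact ⟨i', h, hii⟩
  have hBA : B ⊆ A := by
    rintro u ⟨j, hu⟩
    rw [blk_eq] at hu
    obtain ⟨i, rfl⟩ := hu
    exact (hspec _ ⟨j, rfl⟩ i).1
  have hBcard : #A ≤ #B := by
    apply le_of_forall_lt
    intro b hb
    obtain ⟨j, hj⟩ := hcof _ (hsl.isStrongPrelimit hb)
    refine (cantor b).trans_le (hj.trans ?_)
    have h1 : #(blk A k (k j)) = k j := by
      rw [blk_eq, mk_range_eq _ (hinj j)]
      simp
    rw [← h1]
    apply mk_le_mk_of_subset
    intro g hg
    exact ⟨j, hg⟩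
  -- the graph
  let Γ : SimpleGraph B :=
    { Adj := fun x z => x ≠ z ∧ ∃ j, Mir (tgt A k (k j)) (x : G) z
      symm := ⟨by rintro x z ⟨h1, j, h2⟩; exact ⟨h1.symm, j, h2.symm⟩⟩
      loopless := ⟨by rintro x ⟨h1, _⟩; exact h1 rfl⟩ }
  -- its components are small
  set ρ : Cardinal.{u} := max ℵ₀ #J with hρ
  have h0 : ℵ₀ < #A := by
    refine lt_of_le_of_ne hsi.aleph0_le ?_
    intro h
    rw [← h] at hsi
    exact not_isSingular_aleph0 hsi
  have hρA : ρ < #A := max_lt h0 hJ
  have hcomp : ∀ C : Γ.ConnectedComponent, #{x : B // Γ.connectedComponentMk x = C} ≤ ρ := by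
    intro C
    obtain ⟨x0, hx0⟩ := C.exists_rep
    let F : List J → G := fun l => l.foldr (fun j g => tgt A k (k j) * g⁻¹ * tgt A k (k j)) x0
    have hF : ∀ x : B, Γ.Reachable x0 x → ∃ l, F l = x := by
      intro x hx
      rw [SimpleGraph.reachable_iff_reflTransGen] at hx
      induction hx with
      | refl => exact ⟨[], rfl⟩
      | tail _ hbc ih =>
        obtain ⟨l, hl⟩ := ih
        obtain ⟨-, j, hj⟩ := hbc
        refine ⟨j :: l, ?_⟩
        rw [← hj, ← hl]
        rfl
    have hex : ∀ x : {x : B // Γ.connectedComponentMk x = C}, ∃ l, F l = (x : B) := by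
      rintro ⟨x, hx⟩
      apply hF
      apply SimpleGraph.ConnectedComponent.exact
      rw [hx]
      exact hx0
    choose l hl using hex
    have hlinj : Function.Injective l := by
      intro x x' hxx
      apply Subtype.ext
      apply Subtype.ext
      rw [← hl x, ← hl x', hxx]
    exact (mk_le_of_injective hlinj).trans (mk_list_le_max J)
  have hcount : #A ≤ #Γ.ConnectedComponent := by
    by_contra hlt
    push Not at hlt
    have h1 : #B ≤ #Γ.ConnectedComponent * ρ := by
      have e : B ≃ Σ C : Γ.ConnectedComponent, {x : B // Γ.connectedComponentMk x = C} :=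
        (Equiv.sigmaFiberEquiv _).symm
      rw [mk_congr e, mk_sigma]
      refine (sum_le_sum _ (fun _ => ρ) hcomp).trans ?_
      rw [sum_const, lift_id, lift_id]
    have h2 := mul_lt_of_lt h0.le hlt hρA
    exact absurd (hBcard.trans h1) (not_le.mpr h2)
  -- the admissible set
  have hout : ∀ C : Γ.ConnectedComponent, ∃ x : B, Γ.connectedComponentMk x = C :=
    fun C => C.exists_rep
  choose o ho using hout
  have hoinj : Function.Injective (fun C => (o C : G)) := by
    intro C C' hCC
    have : o C = o C' := Subtype.ext hCC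
    rw [← ho C, ← ho C', this]
  refine ⟨Set.range (fun C => (o C : G)), ?_, ?_, ?_⟩
  · rintro _ ⟨C, rfl⟩
    exact hBA (o C).2
  · apply le_antisymm
    · apply mk_le_mk_of_subset
      rintro _ ⟨C, rfl⟩
      exact hBA (o C).2
    · rw [mk_range_eq _ hoinj]
      exact hcount
  · rintro _ ⟨Cx, rfl⟩ _ ⟨Cy, rfl⟩ _ ⟨Cz, rfl⟩ hxyz
    simp only at hxyz ⊢
    by_contra hxz
    set x := o Cx with hx
    set y := o Cy with hy
    set z := o Cz with hz
    have hm : Mir (y : G) x z := by
      unfold Mir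
      rw [mul_assoc, hxyz, mul_inv_cancel_left]
    have hxy : (x : G) ≠ y := by
      intro h
      apply hxz
      rw [h] at hm ⊢
      unfold Mir at hm
      simpa using hm
    have hzy : (z : G) ≠ y := by
      intro h
      apply hxz
      have hm' := hm.symm
      rw [h] at hm' ⊢
      unfold Mir at hm'
      simpa using hm'.symm
    -- positions
    have hne : ∀ u v : B, (u : G) ≠ v → r u ≠ r v := by
      intro u v huv h
      apply huv
      rw [← hr2 u, ← hr2 v, h]
    have hlt : ∀ u v : B, r u < r v → (u : G) ∈ early A k (r v) := by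
      intro u v h
      rw [← hr2 u]
      exact mem_early A k (hr1 u) h
    -- the last of the three elements
    have hcases : (r x < r y ∧ r z < r y) ∨ (r x < r z ∧ r y < r z) ∨ (r y < r x ∧ r z < r x) := by
      rcases lt_or_gt_of_ne (hne x y hxy) with h1 | h1 <;>
      rcases lt_or_gt_of_ne (hne z y hzy) with h2 | h2 <;>
      rcases lt_or_gt_of_ne (hne x z hxz) with h3 | h3
      · exact Or.inl ⟨h1, h2⟩
      · exact Or.inl ⟨h1, h2⟩
      · exact Or.inr (Or.inl ⟨h3, h2⟩)
      · exact absurd (h1.trans (h2.trans h3)) (lt_irrefl _)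
      · exact absurd (h1.trans (h3.trans h2)) (lt_irrefl _)
      · exact Or.inr (Or.inr ⟨h1, h3⟩)
      · exact Or.inr (Or.inl ⟨h3, h2⟩)
      · exact Or.inr (Or.inr ⟨h1, h3⟩)
    rcases hcases with ⟨h1, h2⟩ | ⟨h1, h2⟩ | ⟨h1, h2⟩
    · -- the middle element is the last one
      have h3 := (htr (r y) (hr1 y) x (hlt x y h1) z (hlt z y h2)).mp (by rw [hr2]; exact hm)
      obtain ⟨j, hj⟩ := hr1 y
      rw [← hj] at h3
      have hadj : Γ.Adj x z := ⟨fun h => hxz (congrArg _ h), j, h3⟩
      have h4 := SimpleGraph.ConnectedComponent.sound hadj.reachable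
      rw [ho, ho] at h4
      apply hxz
      rw [hx, hz, h4]
    · apply hcl (r z) (hr1 z)
      rw [hr2, ← hm]
      have e1 := Subgroup.subset_closure (hlt x z h1)
      have e2 := Subgroup.subset_closure (hlt y z h2)
      exact Subgroup.mul_mem _ (Subgroup.mul_mem _ e2 (Subgroup.inv_mem _ e1)) e2
    · apply hcl (r x) (hr1 x)
      rw [hr2, ← hm.symm]
      have e1 := Subgroup.subset_closure (hlt z x h2)
      have e2 := Subgroup.subset_closure (hlt y x h1)
      exact Subgroup.mul_mem _ (Subgroup.mul_mem _ e2 (Subgroup.inv_mem _ e1)) e2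

end

end Pool.Agent.Lib.MP_af815a_al
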